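import Mathlib
import Pool.Graph.R_seed8.R389.Mono

/-!
# Blocks and weight spaces of commuting families
-/

set_option autoImplicit false
set_option linter.unusedSectionVars false

namespace Pool.Agent.H11.PP

open Pool.Agent.R389 Pool.Agent.W446.AS Pool.Agent.H541R3.ART Module

variable {G : Type} [Group G] [Finite G]

variable {V : Type} [AddCommGroup V] [Module ℂ V] [FiniteDimensional ℂ V]
  {ρ : Representation ℂ G V}

lemma perm_inv_apply {ι : Type} (σ : Equiv.Perm ι) (i : ι) : σ⁻¹ (σ i) = i := σ.symm_apply_apply i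

lemma perm_apply_inv {ι : Type} (σ : Equiv.Perm ι) (i : ι) : σ (σ⁻¹ i) = i := σ.apply_symm_apply i

/-- an independent family of subspaces which is permuted by `G`: the character is induced from every
subgroup which contains the stabilizer of a member -/
theorem block_char (hρ : Irred ρ) {ι : Type} (a : G →* Equiv.Perm ι) (W : ι → Submodule ℂ V)
    (hind : iSupIndep W) (hperm : ∀ (g : G) (i : ι) (v : V), v ∈ W i → ρ g v ∈ W (a g i)) (i₀ : ι)
    (h0 : W i₀ ≠ ⊥) (M : Subgroup G) (hM : ∀ g, a g i₀ = i₀ → g ∈ M) :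
    ∃ ψ ∈ Irr M, ρ.character = ind M ψ := by
  classical
  let B : Set ι := {i | ∃ m ∈ M, i = a m i₀}
  let WB : Submodule ℂ V := ⨆ i ∈ B, W i
  let WC : Submodule ℂ V := ⨆ i ∈ Bᶜ, W i
  have hdis : Disjoint WB WC := hind.disjoint_biSup_biSup disjoint_compl_right
  have hle : ∀ (D : Set ι) (g : G) (E : Set ι), (∀ i ∈ D, a g i ∈ E) → ∀ v ∈ ⨆ i ∈ D, W i,
      ρ g v ∈ ⨆ i ∈ E, W i := by
    intro D g E hDE v hv
    have h1 : (⨆ i ∈ D, W i) ≤ (⨆ i ∈ E, W i).comap (ρ g) := by
      refine iSup₂_le fun i hi w hw => ?_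
      rw [Submodule.mem_comap]
      exact (le_iSup₂_of_le (f := fun i (_ : i ∈ E) => W i) (a g i) (hDE i hi) le_rfl)
        (hperm g i w hw)
    exact h1 hv
  have htop : WB ⊔ WC = ⊤ := by
    have h1 : WB ⊔ WC = ⨆ i ∈ (Set.univ : Set ι), W i := by
      rw [← Set.union_compl_self B, iSup_union]
    rcases hρ.2 (WB ⊔ WC) (by
      intro g v hv
      rw [h1] at hv ⊢
      exact hle _ g _ (fun i _ => Set.mem_univ _) v hv) with h | h
    · exfalso
      apply h0
      rw [eq_bot_iff, ← h, h1]
      exact le_iSup₂_of_le (f := fun i (_ : i ∈ (Set.univ : Set ι)) => W i) i₀ (Set.mem_univ _) le_rfl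
    · exact h
  have hc : IsCompl WB WC := ⟨hdis, codisjoint_iff.mpr htop⟩
  let P : V →ₗ[ℂ] V := WB.subtype ∘ₗ WB.projectionOnto WC hc
  have hPmem : ∀ v, P v ∈ WB := fun v => (WB.projectionOnto WC hc v).2
  have hP1 : ∀ v ∈ WB, P v = v := by
    intro v hv
    have := Submodule.projectionOnto_apply_left hc ⟨v, hv⟩
    exact congrArg Subtype.val this
  have hP2 : ∀ v ∈ WC, P v = 0 := by
    intro v hv
    have := (Submodule.projectionOnto_apply_eq_zero_iff hc (x := v)).mpr hv
    exact congrArg Subtype.val this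
  have hdec : ∀ v : V, ∃ x ∈ WB, ∃ y ∈ WC, x + y = v := by
    intro v
    have : v ∈ WB ⊔ WC := by rw [htop]; exact Submodule.mem_top
    exact Submodule.mem_sup.mp this
  have hBin : ∀ m ∈ M, ∀ i ∈ B, a m i ∈ B := by
    rintro m hm i ⟨n, hn, rfl⟩
    exact ⟨m * n, M.mul_mem hm hn, by rw [map_mul]; rfl⟩
  have hCin : ∀ m ∈ M, ∀ i ∈ Bᶜ, a m i ∈ Bᶜ := by
    intro m hm i hi h
    apply hi
    have := hBin m⁻¹ (M.inv_mem hm) _ h
    rwa [map_inv, perm_inv_apply] at this
  have hBC : ∀ g, g ∉ M → ∀ i ∈ B, a g i ∈ Bᶜ := by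
    rintro g hg i ⟨m, hm, rfl⟩ ⟨n, hn, h⟩
    apply hg
    have h1 : a (n⁻¹ * g * m) i₀ = i₀ := by
      rw [map_mul, map_mul, Equiv.Perm.mul_apply, Equiv.Perm.mul_apply, h, map_inv,
        perm_inv_apply]
    have h2 := M.mul_mem (M.mul_mem hn (hM _ h1)) (M.inv_mem hm)
    have h3 : n * (n⁻¹ * g * m) * m⁻¹ = g := by group
    rwa [h3] at h2
  refine imprim_char hρ M P (fun v => hP1 _ (hPmem v)) ?_ ?_ ?_
  · intro h
    apply h0
    rw [eq_bot_iff]
    intro v hv
    have h1 : v ∈ WB := (le_iSup₂_of_le (f := fun i (_ : i ∈ B) => W i) i₀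
      ⟨1, M.one_mem, by simp⟩ le_rfl) hv
    have h2 := hP1 v h1
    rw [h] at h2
    rw [Submodule.mem_bot, ← h2]
    rfl
  · intro h hh v
    obtain ⟨x, hx, y, hy, rfl⟩ := hdec v
    rw [map_add, map_add, map_add, hP1 x hx, hP2 y hy, add_zero,
      hP1 _ (hle B h B (hBin h hh) x hx), hP2 _ (hle Bᶜ h Bᶜ (hCin h hh) y hy), add_zero]
  · intro g hg v
    exact hP2 _ (hle B g Bᶜ (hBC g hg) _ (hPmem v))

/-- a commuting family of operators has a common eigenvector -/
lemma exists_common_fam {S : Type} : ∀ (n : ℕ) {V : Type} [AddCommGroup V] [Module ℂ V]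
    [FiniteDimensional ℂ V] (T : S → V →ₗ[ℂ] V), (∀ s t, Commute (T s) (T t)) →
    Module.finrank ℂ V = n → Nontrivial V → ∃ v : V, v ≠ 0 ∧ ∀ s, ∃ c : ℂ, T s v = c • v := by
  intro n
  induction n using Nat.strong_induction_on with
  | _ n ih =>
    intro V _ _ _ T hT hn hV
    by_cases hs : ∀ s, ∃ c : ℂ, ∀ v, T s v = c • v
    · obtain ⟨v, hv⟩ := exists_ne (0 : V)
      exact ⟨v, hv, fun s => (hs s).imp fun c hc => hc v⟩
    push Not at hs
    obtain ⟨s, hs⟩ := hs
    obtain ⟨c, hc⟩ := Module.End.exists_eigenvalue (K := ℂ) (T s)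
    let W : Submodule ℂ V := Module.End.eigenspace (T s) c
    have hW : ∀ w, w ∈ W ↔ T s w = c • w := fun w => Module.End.mem_eigenspace_iff
    have hinv : ∀ (x : S) (w : V), w ∈ W → T x w ∈ W := by
      intro x w hw
      rw [hW] at hw ⊢
      rw [← Module.End.mul_apply, (hT s x).eq, Module.End.mul_apply, hw, map_smul]
    have hWt : W ≠ ⊤ := by
      intro h
      obtain ⟨v, hv⟩ := hs c
      apply hv
      rw [← hW, h]
      exact Submodule.mem_top
    have hW0 : W ≠ ⊥ := hc
    have hlt : Module.finrank ℂ W < n := by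
      rw [← hn]
      exact Submodule.finrank_lt hWt
    let T' : S → W →ₗ[ℂ] W := fun x => (T x).restrict (hinv x)
    obtain ⟨v, hv, h1⟩ := ih _ hlt T' (by
      intro x y
      ext w
      have := LinearMap.congr_fun (hT x y).eq (w : V)
      exact this) rfl ((Submodule.nontrivial_iff_ne_bot).mpr hW0)
    refine ⟨(v : V), fun h => hv (Subtype.ext h), fun x => ?_⟩
    obtain ⟨d, hd⟩ := h1 x
    exact ⟨d, congrArg Subtype.val hd⟩

/-- **Weights.** Let `T` be a family of commuting operators which is permuted by the group under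
conjugation. Either all of them are scalars, or the character is induced from all subgroups which
contain a certain proper subgroup. -/
theorem weight_char (hρ : Irred ρ) {S : Type} (b : G →* Equiv.Perm S) (T : S → V →ₗ[ℂ] V)
    (hcomm : ∀ s t, Commute (T s) (T t)) (hT : ∀ g s v, T (b g s) (ρ g v) = ρ g (T s v)) :
    (∀ s, ∃ c : ℂ, ∀ v, T s v = c • v) ∨
      ∃ H : Subgroup G, H ≠ ⊤ ∧ ∀ M : Subgroup G, H ≤ M → ∃ ψ ∈ Irr M, ρ.character = ind M ψ := by
  classical
  obtain ⟨v₀, hv₀, hω⟩ := exists_common_fam _ T hcomm rfl hρ.1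
  choose ω hω using hω
  let a : G →* Equiv.Perm (S → ℂ) :=
    { toFun := fun g =>
        { toFun := fun χ s => χ (b g⁻¹ s)
          invFun := fun χ s => χ (b g s)
          left_inv := by
            intro χ
            funext s
            change χ (b g⁻¹ (b g s)) = χ s
            rw [map_inv, perm_inv_apply]
          right_inv := by
            intro χ
            funext s
            change χ (b g (b g⁻¹ s)) = χ s
            rw [map_inv, perm_apply_inv] }
      map_one' := by
        ext χ s
        change χ (b 1⁻¹ s) = χ s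
        rw [inv_one, map_one]
        rfl
      map_mul' := by
        intro g h
        ext χ s
        change χ (b (g * h)⁻¹ s) = χ (b h⁻¹ (b g⁻¹ s))
        rw [mul_inv_rev, map_mul]
        rfl }
  have ha : ∀ g χ s, a g χ s = χ (b g⁻¹ s) := fun g χ s => rfl
  let W : (S → ℂ) → Submodule ℂ V := fun χ => ⨅ s, Module.End.maxGenEigenspace (T s) (χ s)
  have hTg : ∀ (g : G) (s : S) (v : V), T s (ρ g v) = ρ g (T (b g⁻¹ s) v) := by
    intro g s v
    have h1 := hT g (b g⁻¹ s) v
    rwa [map_inv, perm_apply_inv, ← map_inv] at h1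
  by_cases hst : ∀ g, a g ω = ω
  · left
    have hfix : ∀ g s, ω (b g⁻¹ s) = ω s := fun g s => by
      have := congrFun (hst g) s
      rwa [ha] at this
    let E : Submodule ℂ V := ⨅ s, Module.End.eigenspace (T s) (ω s)
    have hE : ∀ v, v ∈ E ↔ ∀ s, T s v = ω s • v := by
      intro v
      simp only [E, Submodule.mem_iInf, Module.End.mem_eigenspace_iff]
    rcases hρ.2 E (by
      intro g v hv
      rw [hE] at hv ⊢
      intro s
      rw [hTg, hv, hfix, map_smul]) with h | h
    · exfalso
      apply hv₀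
      have : v₀ ∈ E := (hE _).mpr hω
      rw [h] at this
      exact (Submodule.mem_bot ℂ).mp this
    · intro s
      refine ⟨ω s, fun v => ?_⟩
      have : v ∈ E := by rw [h]; exact Submodule.mem_top
      exact (hE v).mp this s
  · right
    push Not at hst
    obtain ⟨g₀, hg₀⟩ := hst
    let H : Subgroup G :=
      { carrier := {g | a g ω = ω}
        mul_mem' := by
          intro x y hx hy
          change a (x * y) ω = ω
          rw [map_mul, Equiv.Perm.mul_apply]
          have hx' : a x ω = ω := hx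
          have hy' : a y ω = ω := hy
          rw [hy', hx']
        one_mem' := by
          change a 1 ω = ω
          rw [map_one]; rfl
        inv_mem' := by
          intro x hx
          have hx' : a x ω = ω := hx
          change a x⁻¹ ω = ω
          rw [map_inv, Equiv.Perm.inv_eq_iff_eq]
          exact hx'.symm }
    refine ⟨H, fun h => hg₀ ?_, fun M hM => ?_⟩
    · have : g₀ ∈ H := by rw [h]; exact Subgroup.mem_top _
      exact this
    · refine block_char hρ a W ?_ ?_ ω ?_ M (fun g hg => hM hg)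
      · exact Module.End.independent_iInf_maxGenEigenspace_of_forall_mapsTo T
          fun i j φ => Module.End.mapsTo_maxGenEigenspace_of_comm (hcomm j i) φ
      · intro g χ v hv
        change v ∈ ⨅ s, Module.End.maxGenEigenspace (T s) (χ s) at hv
        rw [Module.End.mem_iInf_maxGenEigenspace_iff] at hv
        change ρ g v ∈ ⨅ s, Module.End.maxGenEigenspace (T s) (a g χ s)
        rw [Module.End.mem_iInf_maxGenEigenspace_iff]
        intro s
        obtain ⟨k, hk⟩ := hv (b g⁻¹ s)
        refine ⟨k, ?_⟩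
        rw [ha]
        have h1 : ∀ (k : ℕ) (w : V), ((T s - χ (b g⁻¹ s) • (1 : Module.End ℂ V)) ^ k) (ρ g w)
            = ρ g (((T (b g⁻¹ s) - χ (b g⁻¹ s) • (1 : Module.End ℂ V)) ^ k) w) := by
          intro k
          induction k with
          | zero => intro w; simp
          | succ k ih =>
            intro w
            rw [pow_succ, pow_succ, Module.End.mul_apply, Module.End.mul_apply, ← ih]
            congr 1
            simp only [LinearMap.sub_apply, LinearMap.smul_apply, Module.End.one_apply, map_sub,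
              map_smul]
            rw [hTg]
        rw [h1, hk, map_zero]
      · intro h
        apply hv₀
        have h1 : v₀ ∈ W ω := by
          change v₀ ∈ ⨅ s, Module.End.maxGenEigenspace (T s) (ω s)
          rw [Module.End.mem_iInf_maxGenEigenspace_iff]
          intro s
          exact ⟨1, by simp [hω s]⟩
        rw [h] at h1
        exact (Submodule.mem_bot ℂ).mp h1

end Pool.Agent.H11.PP
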