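import Mathlib
import Pool.Graph.R_seed8.R389.Sol
import Pool.Graph.R_seed8.R389.Dec
import Pool.Graph.R_seed8.R389.Brauer

/-!
# The basic characters
-/

set_option autoImplicit false
set_option linter.unusedSectionVars false

namespace Pool.Agent.H11.PP

open Pool.Agent.R389 Pool.Agent.W446.AS Pool.Agent.H541R3.ART Module

/-- elementary groups: nilpotent and hyperelementary, i.e. products of a `p`-group and a cyclic
group, for some prime `p` -/
def Elem (Q : Type) [Group Q] : Prop := Hyper Q ∧ Group.IsNilpotent Q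

/-- `ψ` is a basic character of degree `d`: the character of a faithful irreducible representation
of dimension `d > 1`, such that the quotients by the nonabelian normal subgroups are elementary, the
character is not induced from a nonlinear irreducible character of a proper subgroup, and `d` is a
power of a prime number if the group is solvable -/
def Basic (Q : Type) [Group Q] (d : ℕ) (ψ : Q → ℂ) : Prop :=
  (∃ ρ : Representation ℂ Q (Fin d → ℂ), ρ.IsIrreducible ∧ Function.Injective ρ ∧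
    ψ = ρ.character) ∧ 1 < d ∧
  (∀ (N : Subgroup Q) [N.Normal], (∃ x ∈ N, ∃ y ∈ N, x * y ≠ y * x) → Elem (Q ⧸ N)) ∧
  (∀ M : Subgroup Q, M ≠ ⊤ → ∀ φ ∈ Irr M, ψ = ind M φ → φ 1 = 1) ∧
  (Group.IsSolvable Q → ∃ p k : ℕ, p.Prime ∧ d = p ^ k)

/-- the characters inflated from basic characters -/
def Gen (G : Type) [Group G] (χ : G → ℂ) : Prop :=
  ∃ (Q : Type) (_ : Group Q) (_ : Finite Q) (π : G →* Q) (d : ℕ) (ψ : Q → ℂ),
    Function.Surjective π ∧ Basic Q d ψ ∧ χ = fun g => ψ (π g)

/-- the group generated by the characters which are induced from basic characters of subgroups -/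
def TT (G : Type) [Group G] : AddSubgroup (G → ℂ) :=
  AddSubgroup.closure {f | ∃ (H : Subgroup G) (ψ : H → ℂ), Gen H ψ ∧ f = ind H ψ}

lemma Gen.comp {G G' : Type} [Group G] [Group G'] {χ : G → ℂ} (h : Gen G χ) (f : G' →* G)
    (hf : Function.Surjective f) : Gen G' (fun g => χ (f g)) := by
  obtain ⟨Q, i1, i2, π, d, ψ, h1, h2, rfl⟩ := h
  exact ⟨Q, i1, i2, π.comp f, d, ψ, h1.comp hf, h2, rfl⟩

section

variable {G : Type} [Group G] [Finite G]

lemma Gen.class_fn {χ : G → ℂ} (h : Gen G χ) (g x : G) : χ (x * g * x⁻¹) = χ g := by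
  obtain ⟨Q, i1, i2, π, d, ψ, h1, ⟨⟨ρ, -, -, rfl⟩, -⟩, rfl⟩ := h
  change ρ.character (π (x * g * x⁻¹)) = ρ.character (π g)
  rw [map_mul, map_mul, map_inv]
  exact ρ.char_conj (π g) (π x)

lemma TT.of_gen {χ : G → ℂ} (h : Gen G χ) : χ ∈ TT G := by
  refine AddSubgroup.subset_closure ⟨⊤, fun x => χ x, ?_, ?_⟩
  · exact h.comp (⊤ : Subgroup G).subtype (fun g => ⟨⟨g, Subgroup.mem_top g⟩, rfl⟩)
  · classical
    have : Fintype G := Fintype.ofFinite G
    funext g
    rw [ind_eq]
    have h1 : ∀ x : G, ext (⊤ : Subgroup G) (fun h => χ h) (x⁻¹ * g * x) = χ g := by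
      intro x
      rw [ext_mem _ _ (Subgroup.mem_top _)]
      have := h.class_fn g x⁻¹
      rwa [inv_inv] at this
    rw [Finset.sum_congr rfl (fun x _ => h1 x), Finset.sum_const, Finset.card_univ, nsmul_eq_mul,
      ← mul_assoc, Subgroup.card_top, Nat.card_eq_fintype_card, inv_mul_cancel₀, one_mul]
    exact_mod_cast Fintype.card_ne_zero

lemma TT.ind {H : Subgroup G} {f : H → ℂ} (hf : f ∈ TT H) : ind H f ∈ TT G := by
  have h1 : TT H ≤ (TT G).comap (indHom H) := by
    rw [TT, AddSubgroup.closure_le]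
    rintro f ⟨K, ψ, hψ, rfl⟩
    rw [SetLike.mem_coe, AddSubgroup.mem_comap, indHom_apply, ind_ind]
    refine AddSubgroup.subset_closure ⟨K.map H.subtype, _, ?_, rfl⟩
    exact hψ.comp (K.equivMapOfInjective H.subtype H.subtype_injective).symm.toMonoidHom
      (K.equivMapOfInjective H.subtype H.subtype_injective).symm.surjective
  exact h1 hf

/-- inflation as an additive map -/
noncomputable def inflHom {Y : Type} [Group Y] (π : G →* Y) : (Y → ℂ) →+ (G → ℂ) :=
  AddMonoidHom.mk' (fun f g => f (π g)) (fun _ _ => rfl)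

lemma TT.infl {Y : Type} [Group Y] [Finite Y] {π : G →* Y} (hπ : Function.Surjective π)
    {f : Y → ℂ} (hf : f ∈ TT Y) : (fun g => f (π g)) ∈ TT G := by
  have h1 : TT Y ≤ (TT G).comap (inflHom π) := by
    rw [TT, AddSubgroup.closure_le]
    rintro f ⟨K, ψ, hψ, rfl⟩
    rw [SetLike.mem_coe, AddSubgroup.mem_comap]
    change (fun g => Pool.Agent.R389.ind K ψ (π g)) ∈ TT G
    rw [ind_comap hπ]
    let π' : K.comap π →* K :=
      { toFun := fun h => ⟨π h, h.2⟩
        map_one' := by apply Subtype.ext; simp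
        map_mul' := by intro a b; apply Subtype.ext; simp }
    refine AddSubgroup.subset_closure ⟨K.comap π, _, hψ.comp π' ?_, rfl⟩
    rintro ⟨y, hy⟩
    obtain ⟨g, rfl⟩ := hπ y
    exact ⟨⟨g, hy⟩, rfl⟩
  exact h1 hf

/-- multiplication of an inflated function by a class function -/
noncomputable def mulHom (N : Subgroup G) [N.Normal] (f : G → ℂ) : ((G ⧸ N) → ℂ) →+ (G → ℂ) :=
  AddMonoidHom.mk' (fun u g => u (QuotientGroup.mk' N g) * f g) (fun a b => by
    funext g
    change (a _ + b _) * f g = a _ * f g + b _ * f g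
    ring)

/-- Brauer's and Solomon's induction theorems, relative to a normal subgroup -/
lemma class_mem_rel (N : Subgroup G) [N.Normal] {f : G → ℂ}
    (hf : ∀ g x : G, f (x * g * x⁻¹) = f g) (hN : ¬ Elem (G ⧸ N)) :
    f ∈ AddSubgroup.closure {u : G → ℂ | ∃ (U : Subgroup G) (l : U →* ℂˣ), N ≤ U ∧ U ≠ ⊤ ∧
      u = Pool.Agent.R389.ind U (fun h => ((l h : ℂˣ) : ℂ) * f h)} := by
  let π : G →* G ⧸ N := QuotientGroup.mk' N
  have hπ : Function.Surjective π := QuotientGroup.mk'_surjective N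
  have key : ∀ (U : Subgroup (G ⧸ N)) (l : U →* ℂˣ), U ≠ ⊤ →
      mulHom N f (Pool.Agent.R389.ind U (fun h => ((l h : ℂˣ) : ℂ)))
      ∈ {u : G → ℂ | ∃ (U : Subgroup G) (l : U →* ℂˣ), N ≤ U ∧ U ≠ ⊤ ∧
      u = Pool.Agent.R389.ind U (fun h => ((l h : ℂˣ) : ℂ) * f h)} := by
    intro U l hU
    let π' : U.comap π →* U :=
      { toFun := fun h => ⟨π h, h.2⟩
        map_one' := by apply Subtype.ext; simp
        map_mul' := by intro a b; apply Subtype.ext; simp }
    refine ⟨U.comap π, l.comp π', ?_, ?_, ?_⟩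
    · intro x hx
      rw [Subgroup.mem_comap]
      have : π x = 1 := (QuotientGroup.eq_one_iff x).mpr hx
      rw [this]
      exact U.one_mem
    · intro htop
      apply hU
      rw [eq_top_iff]
      intro y _
      obtain ⟨g, rfl⟩ := hπ y
      have : g ∈ U.comap π := by rw [htop]; exact Subgroup.mem_top g
      exact this
    · funext g
      change Pool.Agent.R389.ind U (fun h => ((l h : ℂˣ) : ℂ)) (π g) * f g = _
      have h2 := congrFun (ind_comap hπ U (fun h => ((l h : ℂˣ) : ℂ))) g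
      rw [h2, ← ind_mul (U.comap π) _ hf g]
      rfl
  have hlast : mulHom N f (fun _ => 1) = f := by
    funext g
    change 1 * f g = f g
    rw [one_mul]
  by_cases hH : Hyper (G ⧸ N)
  · have hNil : ¬ Group.IsNilpotent (G ⧸ N) := fun h => hN ⟨hH, h⟩
    have h1 : PN (G ⧸ N) ≤ (AddSubgroup.closure {u : G → ℂ | ∃ (U : Subgroup G) (l : U →* ℂˣ),
        N ≤ U ∧ U ≠ ⊤ ∧ u = Pool.Agent.R389.ind U (fun h => ((l h : ℂˣ) : ℂ) * f h)}).comap
          (mulHom N f) := by
      rw [PN, AddSubgroup.closure_le]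
      rintro u ⟨U, l, hU, rfl⟩
      rw [SetLike.mem_coe, AddSubgroup.mem_comap]
      apply AddSubgroup.subset_closure
      apply key
      rintro rfl
      exact hNil (Group.nilpotent_of_mulEquiv (Subgroup.topEquiv (G := G ⧸ N)))
    have h2 := h1 one_mem_pn
    rw [AddSubgroup.mem_comap, hlast] at h2
    exact h2
  · have h1 : Sol (G ⧸ N) ≤ (AddSubgroup.closure {u : G → ℂ | ∃ (U : Subgroup G) (l : U →* ℂˣ),
        N ≤ U ∧ U ≠ ⊤ ∧ u = Pool.Agent.R389.ind U (fun h => ((l h : ℂˣ) : ℂ) * f h)}).comap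
          (mulHom N f) := by
      rw [Sol, AddSubgroup.closure_le]
      rintro u ⟨U, hU, rfl⟩
      rw [SetLike.mem_coe, AddSubgroup.mem_comap]
      apply AddSubgroup.subset_closure
      have h2 := key U 1 (by
        rintro rfl
        apply hH
        obtain ⟨p, hp, h3⟩ := hU
        exact ⟨p, hp, HypP.of_surjective (⊤ : Subgroup (G ⧸ N)).subtype
          (fun g => ⟨⟨g, Subgroup.mem_top g⟩, rfl⟩) h3⟩)
      simp only [MonoidHom.one_apply, Units.val_one] at h2
      exact h2
    have h2 := h1 one_mem_sol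
    rw [AddSubgroup.mem_comap, hlast] at h2
    exact h2

/-- no linear constituents over a nonabelian normal subgroup -/
lemma no_linear {V : Type} [AddCommGroup V] [Module ℂ V] [FiniteDimensional ℂ V]
    {ρ : Representation ℂ G V} (hρ : Irred ρ) (hf : ∀ g, ρ g = 1 → g = 1) (N : Subgroup G)
    [N.Normal] (hN : ∃ x ∈ N, ∃ y ∈ N, x * y ≠ y * x) (U : Subgroup G) (hNU : N ≤ U)
    {ψ : U → ℂ} (hψ : ψ ∈ Irr U) (h1 : ψ 1 = 1) : pr (fun u : U => ρ.character u) ψ = 0 := by
  classical
  have : Fintype U := Fintype.ofFinite U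
  obtain ⟨n, σ, hσ, rfl⟩ := exists_rep hψ
  by_contra hne
  have hn1 : n = 1 := by
    have h2 : σ.character 1 = (n : ℂ) := by
      have := σ.char_one
      simp [this]
    rw [h2] at h1
    exact_mod_cast h1
  subst hn1
  have hU : (Nat.card U : ℂ) ≠ 0 := card_ne
  have : Invertible (Nat.card U : ℂ) := invertibleOfNonzero hU
  have h2 := Representation.card_inv_mul_sum_char_mul_char_eq_finrank σ (ρ.comp U.subtype)
  have h3 : pr (fun u : U => ρ.character u) σ.character
      = (Module.finrank ℂ (Representation.IntertwiningMap σ (ρ.comp U.subtype)) : ℂ) := by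
    rw [pr_eq, ← h2]
    rfl
  rw [h3] at hne
  have h4 : 0 < Module.finrank ℂ (Representation.IntertwiningMap σ (ρ.comp U.subtype)) := by
    apply Nat.pos_of_ne_zero
    intro h
    apply hne
    rw [h]
    simp
  obtain ⟨T, hT⟩ := Module.finrank_pos_iff_exists_ne_zero.mp h4
  have h5 : ∃ w, T w ≠ 0 := by
    by_contra hcon
    push Not at hcon
    apply hT
    ext w
    simp [hcon]
  obtain ⟨w, hw⟩ := h5
  have hw0 : w ≠ 0 := by
    rintro rfl
    exact hw (map_zero T.toLinearMap)
  have hfr : Module.finrank ℂ (Fin 1 → ℂ) = 1 := by simp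
  have hsc : ∀ u : U, ∃ c : ℂ, ρ u (T w) = c • T w := by
    intro u
    obtain ⟨c, hc⟩ := (finrank_eq_one_iff_of_nonzero' w hw0).mp hfr (σ u w)
    refine ⟨c, ?_⟩
    have h6 : T (σ u w) = (ρ.comp U.subtype) u (T w) := Representation.IntertwiningMap.isIntertwining σ (ρ.comp U.subtype) T u w
    change (ρ.comp U.subtype) u (T w) = _
    rw [← h6, ← hc]
    exact map_smul T.toLinearMap c w
  let W : Submodule ℂ V :=
    { carrier := {v | ∀ x ∈ N, ∀ y ∈ N, ρ (x * y) v = ρ (y * x) v}
      add_mem' := by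
        intro a b ha hb x hx y hy
        rw [map_add, map_add, ha x hx y hy, hb x hx y hy]
      zero_mem' := by
        intro x _ y _
        rw [map_zero, map_zero]
      smul_mem' := by
        intro c a ha x hx y hy
        rw [map_smul, map_smul, ha x hx y hy] }
  have hW : ∀ v, v ∈ W ↔ ∀ x ∈ N, ∀ y ∈ N, ρ (x * y) v = ρ (y * x) v := fun v => Iff.rfl
  have hTW : T w ∈ W := by
    rw [hW]
    intro x hx y hy
    obtain ⟨c, hc⟩ := hsc ⟨x, hNU hx⟩
    obtain ⟨d, hd⟩ := hsc ⟨y, hNU hy⟩
    simp only at hc hd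
    rw [map_mul, map_mul, Module.End.mul_apply, Module.End.mul_apply, hc, hd, map_smul, map_smul,
      hc, hd, smul_comm]
  rcases hρ.2 W (by
    intro g v hv
    rw [hW] at hv ⊢
    intro x hx y hy
    have e1 : ∀ z ∈ N, g⁻¹ * z * g ∈ N := by
      intro z hz
      have := (inferInstance : N.Normal).conj_mem z hz g⁻¹
      rwa [inv_inv] at this
    have h6 := hv _ (e1 x hx) _ (e1 y hy)
    have h7 : x * y * g = g * ((g⁻¹ * x * g) * (g⁻¹ * y * g)) := by group
    have h8 : y * x * g = g * ((g⁻¹ * y * g) * (g⁻¹ * x * g)) := by group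
    rw [← Module.End.mul_apply, ← Module.End.mul_apply, ← map_mul, ← map_mul, h7, h8, map_mul ρ g,
      map_mul ρ g, Module.End.mul_apply, Module.End.mul_apply, h6]) with h | h
  · rw [h] at hTW
    exact hw ((Submodule.mem_bot ℂ).mp hTW)
  · obtain ⟨x, hx, y, hy, hxy⟩ := hN
    apply hxy
    have h6 : ρ (x * y * (y * x)⁻¹) = 1 := by
      rw [map_mul]
      have h7 : ρ (x * y) = ρ (y * x) := by
        ext v
        have : v ∈ W := by rw [h]; exact Submodule.mem_top
        exact (hW v).mp this x hx y hy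
      rw [h7, ← map_mul, mul_inv_cancel, map_one]
    exact mul_inv_eq_one.mp (hf _ h6)

end

end Pool.Agent.H11.PP
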