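import Mathlib
import Pool.Agent.H11.PP.Block
import Pool.Graph.R_seed8.R389.Dec

/-!
# Restriction to a normal subgroup of prime index, when the class sums are scalars
-/

set_option autoImplicit false
set_option linter.unusedSectionVars false

namespace Pool.Agent.H11.PP

open Pool.Agent.R389 Pool.Agent.W446.AS Pool.Agent.H541R3.ART Module

/-- an irreducible subrepresentation -/
lemma exists_irred_sub {K : Type} [Group K] {V : Type} [AddCommGroup V] [Module ℂ V]
    [FiniteDimensional ℂ V] (σ : Representation ℂ K V) (hV : Nontrivial V) :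
    ∃ W : Subrepresentation σ, Irred W.toRepresentation := by
  classical
  have h1 : ∃ n : ℕ, ∃ W : Subrepresentation σ, W.toSubmodule ≠ ⊥ ∧
      Module.finrank ℂ W.toSubmodule = n :=
    ⟨_, ⟨⊤, fun _ _ _ => Submodule.mem_top⟩, top_ne_bot, rfl⟩
  obtain ⟨W, hW0, hWn⟩ := Nat.find_spec h1
  refine ⟨W, (Submodule.nontrivial_iff_ne_bot).mpr hW0, fun U hU => ?_⟩
  by_cases hU0 : U = ⊥
  · left; exact hU0
  right
  let U' : Subrepresentation σ := ⟨U.map W.toSubmodule.subtype, by
    rintro g v ⟨u, hu, rfl⟩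
    exact ⟨_, hU g u hu, rfl⟩⟩
  have hU'0 : U'.toSubmodule ≠ ⊥ := by
    intro h
    apply hU0
    rw [eq_bot_iff]
    intro u hu
    have h2 : (u : V) ∈ U'.toSubmodule := ⟨u, hu, rfl⟩
    rw [h, Submodule.mem_bot] at h2
    rw [Submodule.mem_bot]
    exact Subtype.ext h2
  have h2 : Nat.find h1 ≤ Module.finrank ℂ U'.toSubmodule :=
    Nat.find_min' h1 ⟨U', hU'0, rfl⟩
  rw [← hWn] at h2
  have h3 : U'.toSubmodule ≤ W.toSubmodule := by
    rintro _ ⟨u, -, rfl⟩
    exact u.2
  have h4 := Submodule.eq_of_le_of_finrank_le h3 h2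
  rw [eq_top_iff]
  intro w _
  have h5 : (w : V) ∈ U'.toSubmodule := by rw [h4]; exact w.2
  obtain ⟨u, hu, hw⟩ := h5
  have h6 : u = w := Subtype.ext hw
  rwa [← h6]

/-- the class sums -/
noncomputable def clsum {K : Type} [Group K] [Finite K] {V : Type} [AddCommGroup V] [Module ℂ V]
    (σ : Representation ℂ K V) (k : K) : V →ₗ[ℂ] V := by
  classical
  exact letI := Fintype.ofFinite K; ∑ x : K, σ (x * k * x⁻¹)

lemma clsum_eq {K : Type} [Group K] [Fintype K] {V : Type} [AddCommGroup V] [Module ℂ V]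
    (σ : Representation ℂ K V) (k : K) : clsum σ k = ∑ x : K, σ (x * k * x⁻¹) := by
  have h : Fintype.ofFinite K = (inferInstance : Fintype K) := Subsingleton.elim _ _
  unfold clsum
  rw [h]

lemma clsum_trace {K : Type} [Group K] [Finite K] {V : Type} [AddCommGroup V] [Module ℂ V]
    (σ : Representation ℂ K V) (k : K) :
    LinearMap.trace ℂ V (clsum σ k) = Nat.card K * σ.character k := by
  classical
  have : Fintype K := Fintype.ofFinite K
  rw [clsum_eq, map_sum]
  have h1 : ∀ x : K, LinearMap.trace ℂ V (σ (x * k * x⁻¹)) = σ.character k :=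
    fun x => σ.char_conj k x
  rw [Finset.sum_congr rfl (fun x _ => h1 x), Finset.sum_const, Finset.card_univ, nsmul_eq_mul,
    Nat.card_eq_fintype_card]

/-- if the class sums are scalars, the restriction is a multiple of one irreducible character -/
lemma exists_mult_of_scalar {K : Type} [Group K] [Finite K] {V : Type} [AddCommGroup V] [Module ℂ V]
    [FiniteDimensional ℂ V] (σ : Representation ℂ K V) (hV : Nontrivial V)
    (hsc : ∀ k, ∃ c : ℂ, ∀ v, clsum σ k v = c • v) :
    ∃ (e : ℕ), pr σ.character σ.character = (e : ℂ) ^ 2 ∧ (e = 1 → Irred σ) := by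
  classical
  have : Fintype K := Fintype.ofFinite K
  obtain ⟨W, hW⟩ := exists_irred_sub σ hV
  have hWn := hW.1
  have hdW : (Module.finrank ℂ W.toSubmodule : ℂ) ≠ 0 := by
    exact_mod_cast (Module.finrank_pos (R := ℂ) (M := W.toSubmodule)).ne'
  have hdV : (Module.finrank ℂ V : ℂ) ≠ 0 := by
    exact_mod_cast (Module.finrank_pos (R := ℂ) (M := V)).ne'
  let θ := W.toRepresentation.character
  have hθ : θ ∈ Irr K := irr_of_irred hW
  have hcK : (Nat.card K : ℂ) ≠ 0 := card_ne
  have key : ∀ k, σ.character k * Module.finrank ℂ W.toSubmodule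
      = θ k * Module.finrank ℂ V := by
    intro k
    obtain ⟨c, hc⟩ := hsc k
    have h1 : clsum σ k = c • (1 : V →ₗ[ℂ] V) := by
      ext v
      rw [hc]
      rfl
    have h2 : clsum W.toRepresentation k = c • (1 : W.toSubmodule →ₗ[ℂ] W.toSubmodule) := by
      ext v
      have h3 := hc (v : V)
      rw [clsum_eq, LinearMap.sum_apply] at h3 ⊢
      rw [Submodule.coe_sum]
      exact h3
    have h4 := clsum_trace σ k
    have h5 := clsum_trace W.toRepresentation k
    rw [h1, map_smul, LinearMap.trace_one, smul_eq_mul] at h4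
    rw [h2, map_smul, LinearMap.trace_one, smul_eq_mul] at h5
    apply mul_left_cancel₀ hcK
    rw [← mul_assoc, ← h4, ← mul_assoc]
    change _ = (Nat.card K : ℂ) * W.toRepresentation.character k * _
    rw [← h5]
    ring
  have hσv : Virt σ.character := char_mem _ σ rfl
  obtain ⟨e, he⟩ := hσv.pr_int hθ
  have hsc' : σ.character = fun k => ((Module.finrank ℂ V : ℂ) / Module.finrank ℂ W.toSubmodule) * θ k := by
    funext k
    rw [div_mul_eq_mul_div, eq_div_iff hdW, key, mul_comm]
  have hpr : ∀ (c : ℂ) (f g : K → ℂ), pr (fun k => c * f k) g = c * pr f g := by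
    intro c f g
    rw [pr_eq, pr_eq, Finset.mul_sum, Finset.mul_sum, Finset.mul_sum]
    refine Finset.sum_congr rfl fun x _ => ?_
    ring
  have h1 : pr σ.character θ = (Module.finrank ℂ V : ℂ) / Module.finrank ℂ W.toSubmodule := by
    rw [hsc', hpr, pr_self hθ, mul_one]
  have he' : (e : ℂ) = (Module.finrank ℂ V : ℂ) / Module.finrank ℂ W.toSubmodule := by
    rw [← he, h1]
  have he2 : (e : ℂ) * Module.finrank ℂ W.toSubmodule = Module.finrank ℂ V := by
    rw [he', div_mul_cancel₀ _ hdW]
  have he3 : e * (Module.finrank ℂ W.toSubmodule : ℤ) = Module.finrank ℂ V := by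
    exact_mod_cast he2
  have he4 : 0 ≤ e := by
    by_contra hcon
    push Not at hcon
    have h2 : (0 : ℤ) < Module.finrank ℂ W.toSubmodule := by
      exact_mod_cast (Module.finrank_pos (R := ℂ) (M := W.toSubmodule))
    have h3 : (0 : ℤ) ≤ Module.finrank ℂ V := by positivity
    nlinarith
  obtain ⟨n, rfl⟩ := Int.eq_ofNat_of_zero_le he4
  refine ⟨n, ?_, fun hn => ?_⟩
  · have h2 : pr σ.character σ.character = pr (fun k => (n : ℂ) * θ k) (fun k => (n : ℂ) * θ k) := by
      have h3 : σ.character = fun k => (n : ℂ) * θ k := by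
        rw [hsc']
        funext k
        rw [← he']
        simp
      rw [← h3]
    rw [h2, hpr, pr_comm, hpr, pr_self hθ]
    ring
  · subst hn
    have h2 : Module.finrank ℂ W.toSubmodule = Module.finrank ℂ V := by
      have := he3
      push_cast at this
      rw [one_mul] at this
      exact_mod_cast this
    have h3 : W.toSubmodule = ⊤ := Submodule.eq_top_of_finrank_eq h2
    refine ⟨hV, fun U hU => ?_⟩
    rcases hW.2 (U.comap W.toSubmodule.subtype) (fun g v hv => hU g _ hv) with h4 | h4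
    · left
      rw [eq_bot_iff]
      intro u hu
      have h5 : u ∈ W.toSubmodule := by rw [h3]; exact Submodule.mem_top
      have h6 : (⟨u, h5⟩ : W.toSubmodule) ∈ U.comap W.toSubmodule.subtype := hu
      rw [h4, Submodule.mem_bot] at h6
      rw [Submodule.mem_bot]
      exact congrArg Subtype.val h6
    · right
      rw [eq_top_iff]
      intro u _
      have h5 : u ∈ W.toSubmodule := by rw [h3]; exact Submodule.mem_top
      have h6 : (⟨u, h5⟩ : W.toSubmodule) ∈ U.comap W.toSubmodule.subtype := by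
        rw [h4]; exact Submodule.mem_top
      exact h6

/-- a linear character whose kernel is a given normal subgroup of prime index -/
lemma exists_lin {U : Type} [Group U] [Finite U] (K : Subgroup U) [K.Normal]
    (hq : K.index.Prime) : ∃ l : U →* ℂˣ, (∀ x, l x = 1 ↔ x ∈ K) ∧ ∀ x, l x ^ K.index = 1 := by
  classical
  have hcard : Nat.card (U ⧸ K) = K.index := rfl
  have : Fact K.index.Prime := ⟨hq⟩
  have hcyc : IsCyclic (U ⧸ K) := isCyclic_of_prime_card hcard
  let _ : CommGroup (U ⧸ K) := hcyc.commGroup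
  have hnt : Nontrivial (U ⧸ K) := by
    rw [← Finite.one_lt_card_iff_nontrivial, hcard]
    exact hq.one_lt
  obtain ⟨a, ha⟩ := exists_ne (1 : U ⧸ K)
  obtain ⟨φ, hφ⟩ := CommGroup.exists_apply_ne_one_of_hasEnoughRootsOfUnity (U ⧸ K) ℂ ha
  have hker : φ.ker = ⊥ := by
    have h1 := Subgroup.card_subgroup_dvd_card φ.ker
    rw [hcard, Nat.dvd_prime hq] at h1
    rcases h1 with h1 | h1
    · exact Subgroup.card_eq_one.mp h1
    · exfalso
      have h2 : φ.ker = ⊤ := Subgroup.eq_top_of_card_eq _ (by rw [h1, hcard])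
      apply hφ
      have : a ∈ φ.ker := by rw [h2]; exact Subgroup.mem_top a
      exact this
  refine ⟨φ.comp (QuotientGroup.mk' K), fun x => ?_, fun x => ?_⟩
  · have h1 : φ (QuotientGroup.mk' K x) = 1 ↔ (QuotientGroup.mk' K x) = 1 := by
      rw [← MonoidHom.mem_ker, hker, Subgroup.mem_bot]
    rw [MonoidHom.comp_apply, h1]
    exact QuotientGroup.eq_one_iff x
  · rw [MonoidHom.comp_apply, ← map_pow, ← hcard, pow_card_eq_one', map_one]

/-- restriction to a normal subgroup of prime index whose class sums are scalars -/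
theorem prime_index_irred {U : Type} [Group U] [Finite U] (K : Subgroup U) [K.Normal]
    (hq : K.index.Prime) {V : Type} [AddCommGroup V] [Module ℂ V] [FiniteDimensional ℂ V]
    {σ : Representation ℂ U V} (hσ : Irred σ)
    (hsc : ∀ k : K, ∃ c : ℂ, ∀ v, clsum (σ.comp K.subtype) k v = c • v) :
    Irred (σ.comp K.subtype) := by
  classical
  have : Fintype U := Fintype.ofFinite U
  have : Fintype K := Fintype.ofFinite K
  obtain ⟨e, he, he1⟩ := exists_mult_of_scalar (σ.comp K.subtype) hσ.1 hsc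
  apply he1
  obtain ⟨l, hl, hlq⟩ := exists_lin K hq
  let χ := σ.character
  have hχ : χ ∈ Irr U := irr_of_irred hσ
  have hcK : (Nat.card K : ℂ) ≠ 0 := card_ne
  have hKU : (Nat.card U : ℂ) = Nat.card K * K.index := by
    exact_mod_cast (K.card_mul_index).symm
  -- the sum over `K`
  have hsumK : ∑ x : U, (if x ∈ K then χ x * χ x⁻¹ else 0) = (Nat.card K : ℂ) * (e : ℂ) ^ 2 := by
    rw [← he, pr_eq, ← mul_assoc, mul_inv_cancel₀ hcK, one_mul, ← Finset.sum_filter]
    exact Finset.sum_subtype (Finset.univ.filter fun g => g ∈ K) (by simp)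
      (fun g => χ g * χ g⁻¹)
  have hall : ∑ x : U, χ x * χ x⁻¹ = Nat.card U := pair_self hχ
  by_cases hfix : ∀ x, χ x ≠ 0 → l x = 1
  · exfalso
    have h1 : ∑ x : U, (if x ∈ K then χ x * χ x⁻¹ else 0) = ∑ x : U, χ x * χ x⁻¹ := by
      refine Finset.sum_congr rfl fun x _ => ?_
      by_cases hx : x ∈ K
      · rw [if_pos hx]
      · rw [if_neg hx]
        have h2 : χ x = 0 := by
          by_contra hcon
          exact hx ((hl x).mp (hfix x hcon))
        rw [h2, zero_mul]
    rw [hsumK, hall, hKU] at h1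
    have h2 := mul_left_cancel₀ hcK h1
    have h3 : e ^ 2 = K.index := by exact_mod_cast h2
    have h4 : IsSquare K.index := ⟨e, by rw [← h3]; ring⟩
    exact hq.prime.not_isSquare h4
  · push Not at hfix
    obtain ⟨x₀, hx₀, hlx₀⟩ := hfix
    have hzero : ∀ j ∈ Finset.range K.index, j ≠ 0 →
        ∑ x : U, χ x * χ x⁻¹ * (((l x⁻¹) ^ j : ℂˣ) : ℂ) = 0 := by
      intro j hj hj0
      have hmem : (fun u => χ u * (((l ^ j) u : ℂˣ) : ℂ)) ∈ Irr U := irr_twist hχ (l ^ j)
      have hne : χ ≠ fun u => χ u * (((l ^ j) u : ℂˣ) : ℂ) := by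
        intro h
        have h1 := congrFun h x₀
        have h2 : (((l ^ j) x₀ : ℂˣ) : ℂ) = 1 := by
          have h3 : χ x₀ * 1 = χ x₀ * (((l ^ j) x₀ : ℂˣ) : ℂ) := by rw [mul_one]; exact h1
          exact (mul_left_cancel₀ hx₀ h3).symm
        have h4 : l x₀ ^ j = 1 := Units.ext (by rw [← MonoidHom.pow_apply]; exact h2)
        apply hlx₀
        have h5 := orderOf_dvd_of_pow_eq_one h4
        have h6 := orderOf_dvd_of_pow_eq_one (hlq x₀)
        rcases (Nat.dvd_prime hq).mp h6 with h7 | h7
        · exact orderOf_eq_one_iff.mp h7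
        · exfalso
          rw [h7] at h5
          have h8 := Nat.le_of_dvd (Nat.pos_of_ne_zero hj0) h5
          rw [Finset.mem_range] at hj
          omega
      have h1 := pair_ne hχ hmem hne
      rw [← h1]
      refine Finset.sum_congr rfl fun x _ => ?_
      rw [MonoidHom.pow_apply]
      ring
    have hgeom : ∀ x : U, ∑ j ∈ Finset.range K.index, (((l x⁻¹) ^ j : ℂˣ) : ℂ)
        = if x ∈ K then (K.index : ℂ) else 0 := by
      intro x
      by_cases hx : x ∈ K
      · rw [if_pos hx]
        have h1 : l x⁻¹ = 1 := (hl _).mpr (K.inv_mem hx)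
        simp [h1]
      · rw [if_neg hx]
        have h1 : l x⁻¹ ≠ 1 := fun h => hx (by simpa using (hl _).mp h)
        have h2 : ((l x⁻¹ : ℂˣ) : ℂ) ≠ 1 := fun h => h1 (Units.ext h)
        have h3 : ∑ j ∈ Finset.range K.index, (((l x⁻¹) ^ j : ℂˣ) : ℂ)
            = ∑ j ∈ Finset.range K.index, ((l x⁻¹ : ℂˣ) : ℂ) ^ j := by
          refine Finset.sum_congr rfl fun j _ => ?_
          rw [Units.val_pow_eq_pow_val]
        rw [h3, geom_sum_eq h2]
        have h4 : ((l x⁻¹ : ℂˣ) : ℂ) ^ K.index = 1 := by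
          rw [← Units.val_pow_eq_pow_val, hlq, Units.val_one]
        rw [h4, sub_self, zero_div]
    have h1 : ∑ j ∈ Finset.range K.index, ∑ x : U, χ x * χ x⁻¹ * (((l x⁻¹) ^ j : ℂˣ) : ℂ)
        = Nat.card U := by
      rw [Finset.sum_eq_single_of_mem 0 (Finset.mem_range.mpr hq.pos) (fun j hj hj0 => hzero j hj hj0)]
      rw [← hall]
      refine Finset.sum_congr rfl fun x _ => ?_
      rw [pow_zero, Units.val_one, mul_one]
    rw [Finset.sum_comm] at h1
    have h2 : ∀ x : U, ∑ j ∈ Finset.range K.index, χ x * χ x⁻¹ * (((l x⁻¹) ^ j : ℂˣ) : ℂ)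
        = (K.index : ℂ) * (if x ∈ K then χ x * χ x⁻¹ else 0) := by
      intro x
      rw [← Finset.mul_sum, hgeom]
      by_cases hx : x ∈ K
      · rw [if_pos hx, if_pos hx]; ring
      · rw [if_neg hx, if_neg hx]; ring
    rw [Finset.sum_congr rfl (fun x _ => h2 x), ← Finset.mul_sum, hsumK, hKU] at h1
    have hi : (K.index : ℂ) ≠ 0 := by exact_mod_cast hq.ne_zero
    have h3 : (e : ℂ) ^ 2 = 1 := by
      have h4 : (K.index : ℂ) * Nat.card K * (e : ℂ) ^ 2 = (K.index : ℂ) * Nat.card K * 1 := by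
        rw [mul_one, mul_assoc, h1]; ring
      exact mul_left_cancel₀ (mul_ne_zero hi hcK) h4
    have h4 : e ^ 2 = 1 := by exact_mod_cast h3
    exact (Nat.pow_eq_one.mp h4).resolve_right two_ne_zero

end Pool.Agent.H11.PP
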