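import Mathlib
import Pool.Agent.H11.PP.Homog

/-!
# Group theory: chief factors, maximal subgroups of solvable groups, hyperelementary quotients
-/

set_option autoImplicit false
set_option linter.unusedSectionVars false

namespace Pool.Agent.H11.PP

open Pool.Agent.R389 Pool.Agent.H302R3

variable {G : Type} [Group G] [Finite G]

/-- an abelian chief factor is of prime exponent -/
lemma chief_exp (E L : Subgroup G) [E.Normal] [L.Normal] (hLE : L < E)
    (hcomm : ∀ x ∈ E, ∀ y ∈ E, x * y * x⁻¹ * y⁻¹ ∈ L)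
    (hch : ∀ B : Subgroup G, B.Normal → L ≤ B → B ≤ E → B = L ∨ B = E) :
    ∃ p : ℕ, p.Prime ∧ ∀ x ∈ E, x ^ p ∈ L := by
  classical
  let π : G →* G ⧸ L := QuotientGroup.mk' L
  have hπ : ∀ x, π x = 1 ↔ x ∈ L := fun x => QuotientGroup.eq_one_iff x
  have hc : ∀ x ∈ E, ∀ y ∈ E, Commute (π x) (π y) := by
    intro x hx y hy
    have h1 := (hπ _).mpr (hcomm x hx y hy)
    rw [map_mul, map_mul, map_mul, map_inv, map_inv, mul_inv_eq_one, mul_inv_eq_iff_eq_mul] at h1
    exact h1
  obtain ⟨x, hxE, hxL⟩ := SetLike.exists_of_lt hLE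
  have hx1 : π x ≠ 1 := fun h => hxL ((hπ x).mp h)
  have hn1 : orderOf (π x) ≠ 1 := fun h => hx1 (orderOf_eq_one_iff.mp h)
  have hn0 : orderOf (π x) ≠ 0 := (orderOf_pos (π x)).ne'
  let p := (orderOf (π x)).minFac
  have hp : p.Prime := Nat.minFac_prime hn1
  have hpn : p ∣ orderOf (π x) := Nat.minFac_dvd _
  let y := x ^ (orderOf (π x) / p)
  have hyE : y ∈ E := E.pow_mem hxE _
  have hyo : orderOf (π y) = p := by
    change orderOf (π (x ^ (orderOf (π x) / p))) = p
    rw [map_pow, orderOf_pow_orderOf_div hn0 hpn]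
  have hyL : y ∉ L := by
    intro h
    have h1 := (hπ y).mpr h
    rw [h1, orderOf_one] at hyo
    exact hp.one_lt.ne hyo
  let B : Subgroup G :=
    { carrier := {z | z ∈ E ∧ z ^ p ∈ L}
      mul_mem' := by
        rintro a b ⟨ha, ha'⟩ ⟨hb, hb'⟩
        refine ⟨E.mul_mem ha hb, ?_⟩
        rw [← hπ] at ha' hb' ⊢
        rw [map_pow] at ha' hb' ⊢
        rw [map_mul, (hc a ha b hb).mul_pow, ha', hb', one_mul]
      one_mem' := ⟨E.one_mem, by rw [one_pow]; exact L.one_mem⟩
      inv_mem' := by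
        rintro a ⟨ha, ha'⟩
        exact ⟨E.inv_mem ha, by rw [inv_pow]; exact L.inv_mem ha'⟩ }
  have hB : ∀ z, z ∈ B ↔ z ∈ E ∧ z ^ p ∈ L := fun z => Iff.rfl
  have hBn : B.Normal := by
    refine ⟨fun z hz g => ?_⟩
    rw [hB] at hz ⊢
    refine ⟨(inferInstance : E.Normal).conj_mem z hz.1 g, ?_⟩
    rw [conj_pow]
    exact (inferInstance : L.Normal).conj_mem _ hz.2 g
  rcases hch B hBn (fun z hz => (hB z).mpr ⟨hLE.le hz, L.pow_mem hz p⟩) (fun z hz => hz.1) with h | h
  · exfalso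
    apply hyL
    rw [← h, hB]
    refine ⟨hyE, ?_⟩
    rw [← hπ, map_pow, ← hyo, pow_orderOf_eq_one]
  · refine ⟨p, hp, fun z hz => ?_⟩
    rw [← h] at hz
    exact hz.2

/-- the index of an abelian chief factor is a power of a prime -/
lemma chief_card (E L : Subgroup G) [E.Normal] [L.Normal] {p : ℕ} (hp : p.Prime)
    (h : ∀ x ∈ E, x ^ p ∈ L) : ∃ k : ℕ, L.relIndex E = p ^ k := by
  have : Fact p.Prime := ⟨hp⟩
  let π : G →* G ⧸ L := QuotientGroup.mk' L
  have h1 : IsPGroup p (E.map π) := by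
    rintro ⟨_, x, hx, rfl⟩
    refine ⟨1, ?_⟩
    apply Subtype.ext
    change (π x) ^ (p ^ 1) = 1
    rw [pow_one, ← map_pow]
    exact (QuotientGroup.eq_one_iff _).mpr (h x hx)
  obtain ⟨k, hk⟩ := IsPGroup.iff_card.mp h1
  refine ⟨k, ?_⟩
  have hker : π.ker = L := QuotientGroup.ker_mk' L
  have h2 := Subgroup.relIndex_ker (K := E) π
  rw [hker] at h2
  rw [h2, hk]

lemma card_rel (L E : Subgroup G) (h : L ≤ E) : Nat.card L * L.relIndex E = Nat.card E := by
  have h1 := Subgroup.relIndex_mul_relIndex ⊥ L E bot_le h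
  rwa [Subgroup.relIndex_bot_left, Subgroup.relIndex_bot_left] at h1

/-- **Maximal subgroups of solvable groups have prime power index.** -/
theorem coatom_index [hG : Group.IsSolvable G] (M : Subgroup G) (hM : IsCoatom M) :
    ∃ p k : ℕ, p.Prime ∧ M.index = p ^ k := by
  classical
  have hfin : Finite (Subgroup G) := inferInstance
  obtain ⟨E, ⟨hEn, hEM⟩, hEmin⟩ := (Set.toFinite {E : Subgroup G | E.Normal ∧ ¬ E ≤ M}).exists_minimal
    ⟨⊤, inferInstance, fun h => hM.1 (top_le_iff.mp h)⟩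
  have hmin : ∀ B : Subgroup G, B.Normal → B < E → B ≤ M := by
    intro B hB hBE
    by_contra hcon
    exact absurd (hEmin ⟨hB, hcon⟩ hBE.le) (not_le_of_gt hBE)
  have hE0 : E ≠ ⊥ := fun h => hEM (by rw [h]; exact bot_le)
  have hD : ⁅E, E⁆ < E := Group.IsSolvable.commutator_lt_of_ne_bot hE0
  have hDM : ⁅E, E⁆ ≤ M := hmin _ inferInstance hD
  let L : Subgroup G := E ⊓ M
  have hsup : M ⊔ E = ⊤ := by
    rcases hM.2 (M ⊔ E) (lt_of_le_of_ne le_sup_left (fun h => hEM (by rw [h]; exact le_sup_right))) with h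
    exact h
  have hcommL : ∀ x ∈ E, ∀ y ∈ E, x * y * x⁻¹ * y⁻¹ ∈ L := by
    intro x hx y hy
    have h1 : x * y * x⁻¹ * y⁻¹ ∈ ⁅E, E⁆ := Subgroup.commutator_mem_commutator hx hy
    exact ⟨hD.le h1, hDM h1⟩
  have hLn : L.Normal := by
    refine ⟨fun x hx g => ?_⟩
    have hg : g ∈ (M ⊔ E : Subgroup G) := by rw [hsup]; exact Subgroup.mem_top g
    have hg' : g ∈ (↑(M ⊔ E) : Set G) := hg
    rw [Subgroup.mul_normal] at hg'
    obtain ⟨m, hm, e, he, rfl⟩ := hg'
    have h1 : e * x * e⁻¹ ∈ L := by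
      have h2 := hcommL e he x hx.1
      have h3 := L.mul_mem h2 hx
      have h4 : e * x * e⁻¹ * x⁻¹ * x = e * x * e⁻¹ := by group
      rwa [h4] at h3
    refine ⟨hEn.conj_mem _ hx.1 _, ?_⟩
    have h2 := M.mul_mem (M.mul_mem hm h1.2) (M.inv_mem hm)
    have h3 : m * (e * x * e⁻¹) * m⁻¹ = m * e * x * (m * e)⁻¹ := by group
    rwa [h3] at h2
  have hLE : L < E := lt_of_le_of_ne inf_le_left (fun h => hEM (by rw [← h]; exact inf_le_right))
  obtain ⟨p, hp, hpE⟩ := chief_exp E L hLE hcommL (by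
    intro B hB hLB hBE
    rcases hBE.lt_or_eq with h | h
    · left
      exact le_antisymm (le_inf hBE (hmin B hB h)) hLB
    · right; exact h)
  obtain ⟨k, hk⟩ := chief_card E L hp hpE
  refine ⟨p, k, hp, ?_⟩
  rw [← hk]
  -- |G| = |M| [E : L]
  have h1 : E.index = E.relIndex M := by
    rw [← Subgroup.relIndex_top_right, ← hsup, Subgroup.relIndex_sup_right]
  have h2 := E.card_mul_index
  have h3 : Nat.card L * (L.relIndex E) = Nat.card E := card_rel L E hLE.le
  have h4 : Nat.card L * (E.relIndex M) = Nat.card M := by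
    have h5 := card_rel L M inf_le_right
    have h6 : L.relIndex M = E.relIndex M := Subgroup.inf_relIndex_right E M
    rwa [h6] at h5
  have h5 := M.card_mul_index
  rw [h1, ← h3] at h2
  rw [← h2, ← h4] at h5
  have hL0 : 0 < Nat.card L := Nat.card_pos
  have hi0 : 0 < E.relIndex M := by
    rw [← h1]
    exact Nat.pos_of_ne_zero Subgroup.index_ne_zero_of_finite
  have h6 : (Nat.card L * E.relIndex M) * M.index = (Nat.card L * E.relIndex M) * L.relIndex E := by
    rw [h5]; ring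
  exact Nat.eq_of_mul_eq_mul_left (Nat.mul_pos hL0 hi0) h6

/-- a nontrivial hyperelementary group has a normal subgroup of prime order -/
lemma hyper_prime {Q : Type} [Group Q] [Finite Q] [Nontrivial Q] (hQ : Hyper Q) :
    ∃ P : Subgroup Q, P.Normal ∧ (Nat.card P).Prime := by
  classical
  obtain ⟨p, hp, c, hcop, hcn, hpw⟩ := hQ
  have hx : ∃ x : Q, x ≠ 1 ∧ ∀ u : Q, u * x * u⁻¹ ∈ Subgroup.zpowers x := by
    by_cases hc : c = 1
    · subst hc
      have : Fact p.Prime := ⟨hp⟩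
      have h1 : IsPGroup p Q := by
        intro u
        obtain ⟨k, hk⟩ := hpw u
        refine ⟨k, ?_⟩
        simpa using hk
      have h2 := h1.center_nontrivial
      obtain ⟨⟨z, hz⟩, hz1⟩ := exists_ne (1 : Subgroup.center Q)
      refine ⟨z, fun h => hz1 (Subtype.ext h), fun u => ?_⟩
      rw [Subgroup.mem_center_iff.mp hz u, mul_inv_cancel_right]
      exact Subgroup.mem_zpowers z
    · exact ⟨c, hc, hcn⟩
  obtain ⟨x, hx1, hxn⟩ := hx
  have hn1 : orderOf x ≠ 1 := fun h => hx1 (orderOf_eq_one_iff.mp h)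
  have hn0 : orderOf x ≠ 0 := (orderOf_pos x).ne'
  let l := (orderOf x).minFac
  have hl : l.Prime := Nat.minFac_prime hn1
  let y := x ^ (orderOf x / l)
  have hy : orderOf y = l := orderOf_pow_orderOf_div hn0 (Nat.minFac_dvd _)
  have hyn : ∀ u : Q, u * y * u⁻¹ ∈ Subgroup.zpowers y := by
    intro u
    obtain ⟨j, hj⟩ := Subgroup.mem_zpowers_iff.mp (hxn u)
    refine Subgroup.mem_zpowers_iff.mpr ⟨j, ?_⟩
    change (x ^ (orderOf x / l)) ^ j = u * x ^ (orderOf x / l) * u⁻¹
    rw [← conj_pow, ← hj, ← zpow_natCast, ← zpow_natCast, ← zpow_mul, ← zpow_mul, mul_comm]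
  refine ⟨Subgroup.zpowers y, ⟨fun z hz u => ?_⟩, ?_⟩
  · obtain ⟨j, rfl⟩ := Subgroup.mem_zpowers_iff.mp hz
    rw [← conj_zpow]
    exact zpow_mem (hyn u) j
  · rw [Nat.card_zpowers, hy]
    exact hl

lemma Hyper.of_surj {W Q : Type} [Group W] [Group Q] (f : W →* Q) (hf : Function.Surjective f)
    (h : Hyper W) : Hyper Q := by
  obtain ⟨p, hp, h⟩ := h
  exact ⟨p, hp, HypP.of_surjective f hf h⟩

/-- the step of a chain: if `G / K` is hyperelementary and `K ≠ G`, there is a normal subgroup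
`K'` above `K` with index `[K' : K]` a prime number -/
lemma exists_step (K : Subgroup G) [K.Normal] (hK : K ≠ ⊤) (hH : Hyper (G ⧸ K)) :
    ∃ K' : Subgroup G, K'.Normal ∧ K < K' ∧ (K.relIndex K').Prime := by
  classical
  have hnt : Nontrivial (G ⧸ K) := by
    by_contra hcon
    rw [not_nontrivial_iff_subsingleton] at hcon
    apply hK
    rw [eq_top_iff]
    intro x _
    exact (QuotientGroup.eq_one_iff x).mp (Subsingleton.elim _ _)
  obtain ⟨P, hP, hPc⟩ := hyper_prime hH
  let π : G →* G ⧸ K := QuotientGroup.mk' K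
  have hπ : Function.Surjective π := QuotientGroup.mk'_surjective K
  have hker : π.ker = K := QuotientGroup.ker_mk' K
  have hle : K ≤ P.comap π := by
    intro x hx
    rw [Subgroup.mem_comap]
    have : π x = 1 := (QuotientGroup.eq_one_iff x).mpr hx
    rw [this]
    exact P.one_mem
  have hrel : K.relIndex (P.comap π) = Nat.card P := by
    have h1 := Subgroup.relIndex_ker (K := P.comap π) π
    rw [hker] at h1
    rw [h1, Subgroup.map_comap_eq_self_of_surjective hπ]
  refine ⟨P.comap π, hP.comap π, lt_of_le_of_ne hle ?_, by rw [hrel]; exact hPc⟩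
  intro h
  rw [← h, Subgroup.relIndex_self] at hrel
  rw [← hrel] at hPc
  exact Nat.not_prime_one hPc

end Pool.Agent.H11.PP
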