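import Mathlib
import Pool.Agent.H11.PP.Grp

/-!
# The degree of an irreducible character of a group which is abelian modulo scalars
-/

set_option autoImplicit false
set_option linter.unusedSectionVars false

namespace Pool.Agent.H11.PP

open Pool.Agent.R389 Pool.Agent.W446.AS Pool.Agent.H541R3.ART Module

/-- if commutators are scalars, the degree is a power of `p`, if the group is a `p`-group modulo
scalars -/
theorem deg_pow {N : Type} [Group N] [Finite N] {V : Type} [AddCommGroup V] [Module ℂ V]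
    [FiniteDimensional ℂ V] {σ : Representation ℂ N V} (hσ : Irred σ) (A : Subgroup N)
    (hA : ∀ a ∈ A, ∃ c : ℂ, ∀ v, σ a v = c • v) (hcomm : ∀ x y : N, x * y * x⁻¹ * y⁻¹ ∈ A)
    {p k : ℕ} (hp : p.Prime) (hidx : A.index = p ^ k) : ∃ m : ℕ, Module.finrank ℂ V = p ^ m := by
  classical
  have : Fintype N := Fintype.ofFinite N
  have hn := hσ.1
  obtain ⟨v₀, hv₀⟩ := exists_ne (0 : V)
  let Z : Subgroup N :=
    { carrier := {x | ∃ c : ℂ, ∀ v, σ x v = c • v}
      mul_mem' := by
        rintro a b ⟨c, hc⟩ ⟨d, hd⟩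
        refine ⟨c * d, fun v => ?_⟩
        rw [map_mul, Module.End.mul_apply, hd, map_smul, hc, smul_smul, mul_comm]
      one_mem' := ⟨1, fun v => by rw [map_one, Module.End.one_apply, one_smul]⟩
      inv_mem' := by
        rintro a ⟨c, hc⟩
        have h1 : ∀ v, c • σ a⁻¹ v = v := by
          intro v
          rw [← hc, ← Module.End.mul_apply, ← map_mul, mul_inv_cancel, map_one,
            Module.End.one_apply]
        have hc0 : c ≠ 0 := by
          rintro rfl
          apply hv₀
          rw [← h1 v₀, zero_smul]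
        refine ⟨c⁻¹, fun v => ?_⟩
        rw [← h1 v, smul_smul, inv_mul_cancel₀ hc0, one_smul, h1] }
  have hZ : ∀ x, x ∈ Z ↔ ∃ c : ℂ, ∀ v, σ x v = c • v := fun x => Iff.rfl
  have hAZ : A ≤ Z := fun a ha => hA a ha
  let χ := σ.character
  have hχ : χ ∈ Irr N := irr_of_irred hσ
  let d : ℕ := Module.finrank ℂ V
  have hχc : ∀ (x : N) (c : ℂ), (∀ v, σ x v = c • v) → χ x = c * d := by
    intro x c hc
    have h1 : σ x = c • (1 : V →ₗ[ℂ] V) := by
      ext v
      rw [hc]
      rfl
    change LinearMap.trace ℂ V (σ x) = _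
    rw [h1, map_smul, LinearMap.trace_one, smul_eq_mul]
  have hzero : ∀ x, x ∉ Z → χ x = 0 := by
    intro x hx
    have h1 : ∃ y, ∃ v, σ y (σ x v) ≠ σ x (σ y v) := by
      by_contra hcon
      push Not at hcon
      apply hx
      rw [hZ]
      exact hσ.scalar (σ x) (fun g v => (hcon g v).symm)
    obtain ⟨y, v, hyv⟩ := h1
    obtain ⟨c, hc⟩ := hA _ (hcomm y x)
    have h2 : σ (y * x * y⁻¹) = c • σ x := by
      ext w
      have h3 : y * x * y⁻¹ = (y * x * y⁻¹ * x⁻¹) * x := by group
      rw [h3, map_mul, Module.End.mul_apply, hc]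
      rfl
    have h4 : χ (y * x * y⁻¹) = χ x := σ.char_conj x y
    have h5 : χ (y * x * y⁻¹) = c * χ x := by
      change LinearMap.trace ℂ V (σ (y * x * y⁻¹)) = c * LinearMap.trace ℂ V (σ x)
      rw [h2, map_smul, smul_eq_mul]
    have hc1 : c ≠ 1 := by
      rintro rfl
      apply hyv
      have h6 := congrArg (fun T : V →ₗ[ℂ] V => T (σ y v)) h2
      simp only [one_smul] at h6
      rw [← h6, map_mul, map_mul, Module.End.mul_apply, Module.End.mul_apply]
      congr 2
      rw [← Module.End.mul_apply, ← map_mul, inv_mul_cancel, map_one, Module.End.one_apply]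
    rw [h5] at h4
    have h7 : (c - 1) * χ x = 0 := by rw [sub_mul, h4, one_mul, sub_self]
    exact (mul_eq_zero.mp h7).resolve_left (sub_ne_zero.mpr hc1)
  have hval : ∀ x ∈ Z, χ x * χ x⁻¹ = (d : ℂ) ^ 2 := by
    rintro x ⟨c, hc⟩
    obtain ⟨c', hc'⟩ := Z.inv_mem ((hZ x).mpr ⟨c, hc⟩)
    have h1 : c * c' = 1 := by
      have h2 : (c * c') • v₀ = v₀ := by
        calc (c * c') • v₀ = σ x (σ x⁻¹ v₀) := by rw [hc, hc', smul_smul]
          _ = v₀ := by
            rw [← Module.End.mul_apply, ← map_mul, mul_inv_cancel, map_one, Module.End.one_apply]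
      have h3 : (c * c' - 1) • v₀ = 0 := by rw [sub_smul, one_smul, h2, sub_self]
      exact sub_eq_zero.mp ((smul_eq_zero.mp h3).resolve_right hv₀)
    rw [hχc x c hc, hχc x⁻¹ c' hc']
    linear_combination (d : ℂ) ^ 2 * h1
  have hsum : (Nat.card Z : ℂ) * (d : ℂ) ^ 2 = Nat.card N := by
    rw [← pair_self hχ]
    have h1 : ∀ x : N, χ x * χ x⁻¹ = if x ∈ Z then (d : ℂ) ^ 2 else 0 := by
      intro x
      by_cases hx : x ∈ Z
      · rw [if_pos hx, hval x hx]
      · rw [if_neg hx, hzero x hx, zero_mul]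
    rw [Finset.sum_congr rfl (fun x _ => h1 x), ← Finset.sum_filter, Finset.sum_const,
      nsmul_eq_mul]
    congr 1
    rw [← Fintype.card_subtype, ← Nat.card_eq_fintype_card]
  have h1 : Nat.card Z * d ^ 2 = Nat.card N := by exact_mod_cast hsum
  have h2 : d ^ 2 = Z.index := by
    have h3 := Z.card_mul_index
    rw [← h1] at h3
    exact (Nat.eq_of_mul_eq_mul_left Nat.card_pos h3).symm
  have h3 : d ∣ p ^ k := by
    rw [← hidx]
    exact (Dvd.intro_left d (by ring)).trans (h2 ▸ Subgroup.index_dvd_of_le hAZ)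
  obtain ⟨m, -, hm⟩ := (Nat.dvd_prime_pow hp).mp h3
  exact ⟨m, hm⟩

end Pool.Agent.H11.PP
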