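import Mathlib
import Pool.Agent.H11.PP.Deg
import Pool.Agent.H11.PP.Defs
import Pool.Graph.R_seed8.R389.Del

/-!
# Nonlinear irreducible characters are combinations of induced basic characters
-/

set_option autoImplicit false
set_option linter.unusedSectionVars false

namespace Pool.Agent.H11.PP

open Pool.Agent.R389 Pool.Agent.W446.AS Pool.Agent.H541R3.ART Module

variable {G : Type} [Group G] [Finite G]

lemma ind_one (M : Subgroup G) (ψ : M → ℂ) : ind M ψ 1 = M.index * ψ 1 := by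
  classical
  have : Fintype G := Fintype.ofFinite G
  rw [ind_eq]
  have h1 : ∀ x : G, ext M ψ (x⁻¹ * 1 * x) = ψ 1 := by
    intro x
    have h2 : x⁻¹ * 1 * x = 1 := by group
    rw [h2, ext_mem _ _ M.one_mem]
    rfl
  rw [Finset.sum_congr rfl (fun x _ => h1 x), Finset.sum_const, Finset.card_univ, nsmul_eq_mul,
    ← Nat.card_eq_fintype_card, ← M.card_mul_index]
  have h3 : (Nat.card M : ℂ) ≠ 0 := card_ne
  push_cast
  field_simp

/-- the induction hypothesis -/
def IH (n : ℕ) : Prop :=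
  ∀ m < n, ∀ (G : Type) [Group G] [Finite G], Nat.card G = m → ∀ χ ∈ Irr G, χ 1 ≠ 1 → χ ∈ TT G

lemma card_lt {H : Subgroup G} (hH : H ≠ ⊤) : Nat.card H < Nat.card G := by
  rcases lt_or_eq_of_le (Nat.le_of_dvd Nat.card_pos H.card_subgroup_dvd_card) with h | h
  · exact h
  · exact absurd (Subgroup.eq_top_of_card_eq H h) hH

/-- imprimitive characters of solvable groups -/
lemma imprim_deg [Group.IsSolvable G] {d : ℕ} {ρ : Representation ℂ G (Fin d → ℂ)}
    (h3 : ∀ M : Subgroup G, M ≠ ⊤ → ∀ φ ∈ Irr M, ρ.character = ind M φ → φ 1 = 1)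
    (h : ∃ H : Subgroup G, H ≠ ⊤ ∧ ∀ M : Subgroup G, H ≤ M → ∃ ψ ∈ Irr M, ρ.character = ind M ψ) :
    ∃ p k : ℕ, p.Prime ∧ d = p ^ k := by
  obtain ⟨H, hH, h⟩ := h
  obtain ⟨M, hM, hHM⟩ := (eq_top_or_exists_le_coatom H).resolve_left hH
  obtain ⟨ψ, hψ, hψ1⟩ := h M hHM
  have h1 := h3 M hM.1 ψ hψ hψ1
  obtain ⟨p, k, hp, hk⟩ := coatom_index M hM
  have h2 : ρ.character 1 = (d : ℂ) := by
    have := ρ.char_one
    simp [this]
  have h4 : (d : ℂ) = M.index := by
    rw [← h2, hψ1, ind_one, h1, mul_one]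
  refine ⟨p, k, hp, ?_⟩
  rw [← hk]
  exact_mod_cast h4

/-- reduction to elementary quotients -/
lemma quot_done (ih : IH (Nat.card G)) {V : Type} [AddCommGroup V] [Module ℂ V]
    [FiniteDimensional ℂ V]
    {ρ : Representation ℂ G V} (hρ : Irred ρ) (hf : ∀ g, ρ g = 1 → g = 1) (N : Subgroup G)
    [N.Normal] (hN : ∃ x ∈ N, ∃ y ∈ N, x * y ≠ y * x) (hQ : ¬ Elem (G ⧸ N)) :
    ρ.character ∈ TT G := by
  classical
  have hcl : ∀ g x : G, ρ.character (x * g * x⁻¹) = ρ.character g := fun g x => ρ.char_conj g x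
  refine (AddSubgroup.closure_le (TT G)).mpr ?_ (class_mem_rel N hcl hQ)
  rintro u ⟨U, l, hNU, hUt, rfl⟩
  apply TT.ind
  let f : U → ℂ := fun u => ρ.character u
  have hv : Virt f := char_mem _ (ρ.comp U.subtype) rfl
  have h1 : f = ∑ ψ ∈ irrF U, mult f ψ • ψ := by
    funext g
    rw [hv.expand g, Finset.sum_apply]
    refine Finset.sum_congr rfl fun ψ hψ => ?_
    rw [mult_spec hv (mem_irrF.mp hψ)]
    simp
  have h2 : (fun h : U => ((l h : ℂˣ) : ℂ) * ρ.character h) = twHom l f := by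
    funext h
    change _ = f h * ((l h : ℂˣ) : ℂ)
    rw [mul_comm]
  rw [h2, h1, map_sum]
  refine sum_mem fun ψ hψ => ?_
  rw [map_zsmul]
  have hψ' := mem_irrF.mp hψ
  by_cases h2 : ψ 1 = 1
  · have h3 := no_linear hρ hf N hN U hNU hψ' h2
    have h4 : mult f ψ = 0 := mult_of_pr (by rw [show pr f ψ = 0 from h3]; simp)
    rw [h4, zero_smul]
    exact zero_mem _
  · refine zsmul_mem (ih _ (card_lt hUt) U rfl _ (irr_twist hψ' l) ?_) _
    change ψ 1 * ((l 1 : ℂˣ) : ℂ) ≠ 1
    rw [map_one, Units.val_one, mul_one]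
    exact h2

/-- conjugation on a normal subgroup as permutations -/
noncomputable def cjP (K : Subgroup G) [K.Normal] : G →* Equiv.Perm K :=
  (MulAut.toPerm K).comp MulAut.conjNormal

lemma cjP_apply (K : Subgroup G) [K.Normal] (g : G) (k : K) :
    ((cjP K g k : K) : G) = g * k * g⁻¹ := MulAut.conjNormal_apply g k

/-- the class sums of a normal subgroup -/
lemma clsum_conj {V : Type} [AddCommGroup V] [Module ℂ V] (ρ : Representation ℂ G V)
    (K : Subgroup G) [K.Normal] (g : G) (k : K) (v : V) :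
    clsum (ρ.comp K.subtype) (cjP K g k) (ρ g v) = ρ g (clsum (ρ.comp K.subtype) k v) := by
  classical
  have : Fintype K := Fintype.ofFinite K
  rw [clsum_eq, clsum_eq, LinearMap.sum_apply, LinearMap.sum_apply, map_sum,
    ← Equiv.sum_comp (cjP K g)]
  refine Finset.sum_congr rfl fun x _ => ?_
  change ρ (((cjP K g x : K) : G) * ((cjP K g k : K) : G) * ((cjP K g x : K) : G)⁻¹) (ρ g v)
    = ρ g (ρ ((x : G) * k * (x : G)⁻¹) v)
  rw [cjP_apply, cjP_apply, ← Module.End.mul_apply, ← Module.End.mul_apply, ← map_mul, ← map_mul]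
  congr 2
  group

lemma clsum_comm {K : Type} [Group K] [Finite K] {V : Type} [AddCommGroup V] [Module ℂ V]
    (σ : Representation ℂ K V) (k x : K) : Commute (clsum σ k) (σ x) := by
  classical
  have : Fintype K := Fintype.ofFinite K
  change clsum σ k * σ x = σ x * clsum σ k
  rw [clsum_eq, Finset.sum_mul, Finset.mul_sum, ← Equiv.sum_comp (Equiv.mulLeft x)]
  refine Finset.sum_congr rfl fun y _ => ?_
  rw [← map_mul, ← map_mul]
  congr 1
  simp only [Equiv.coe_mulLeft]
  group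

lemma clsum_comm' {K : Type} [Group K] [Finite K] {V : Type} [AddCommGroup V] [Module ℂ V]
    (σ : Representation ℂ K V) (k l : K) : Commute (clsum σ k) (clsum σ l) := by
  classical
  have : Fintype K := Fintype.ofFinite K
  rw [clsum_eq σ l]
  exact Commute.sum_right _ _ _ fun x _ => clsum_comm σ k _

/-- the homogeneous case -/
lemma homog_irred {V : Type} [AddCommGroup V] [Module ℂ V] [FiniteDimensional ℂ V]
    {ρ : Representation ℂ G V} (K K' : Subgroup G) [K.Normal] [K'.Normal] (hKK : K ≤ K')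
    (hq : (K.relIndex K').Prime) (hK' : Irred (ρ.comp K'.subtype))
    (hsc : ∀ k : K, ∃ c : ℂ, ∀ v, clsum (ρ.comp K.subtype) k v = c • v) :
    Irred (ρ.comp K.subtype) := by
  classical
  have hn : (K.subgroupOf K').Normal := inferInstance
  have : Fintype K := Fintype.ofFinite K
  have : Fintype (K.subgroupOf K') := Fintype.ofFinite _
  let e : K.subgroupOf K' ≃* K := Subgroup.subgroupOfEquivOfLe hKK
  have he : ∀ x : K.subgroupOf K', ((e x : K) : G) = ((x : K') : G) := fun x => rfl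
  have h1 := prime_index_irred (K.subgroupOf K') hq hK' (by
    intro k
    obtain ⟨c, hc⟩ := hsc (e k)
    refine ⟨c, fun v => ?_⟩
    rw [← hc v, clsum_eq, clsum_eq, LinearMap.sum_apply, LinearMap.sum_apply,
      ← Equiv.sum_comp e.toEquiv]
    rfl)
  refine ⟨h1.1, fun W hW => h1.2 W ?_⟩
  intro g v hv
  exact hW (e g) v hv

/-- **Degrees.** Basic characters of solvable groups have prime power degree. -/
theorem deg_prime_power [hsol : Group.IsSolvable G] {d : ℕ} {ρ : Representation ℂ G (Fin d → ℂ)}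
    (hρ : Irred ρ) (hd : d ≠ 1)
    (h2 : ∀ (N : Subgroup G) [N.Normal], (∃ x ∈ N, ∃ y ∈ N, x * y ≠ y * x) → Elem (G ⧸ N))
    (h3 : ∀ M : Subgroup G, M ≠ ⊤ → ∀ φ ∈ Irr M, ρ.character = ind M φ → φ 1 = 1) :
    ∃ p k : ℕ, p.Prime ∧ d = p ^ k := by
  classical
  have hnonab : ∃ x : G, ∃ y : G, x * y ≠ y * x := by
    by_contra hcon
    push Not at hcon
    -- all operators are scalars
    have hn := hρ.1
    have hsc : ∀ g, ∃ c : ℂ, ∀ v, ρ g v = c • v := by
      intro g
      refine hρ.scalar (ρ g) fun x v => ?_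
      rw [← Module.End.mul_apply, ← Module.End.mul_apply, ← map_mul, ← map_mul, hcon]
    obtain ⟨v, hv⟩ := exists_ne (0 : Fin d → ℂ)
    have h1 : ℂ ∙ v = ⊤ := by
      rcases hρ.2 (ℂ ∙ v) (by
        intro g w hw
        obtain ⟨c, hc⟩ := hsc g
        rw [hc]
        exact Submodule.smul_mem _ _ hw) with h | h
      · exact absurd ((Submodule.span_singleton_eq_bot).mp h) hv
      · exact h
    have h2 := finrank_span_singleton (K := ℂ) hv
    rw [h1, finrank_top, Module.finrank_fin_fun] at h2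
    exact hd h2
  -- a minimal nonabelian normal subgroup
  obtain ⟨N, ⟨hNn, hNab⟩, hNmin⟩ := (Set.toFinite {N : Subgroup G | N.Normal ∧
    ∃ x ∈ N, ∃ y ∈ N, x * y ≠ y * x}).exists_minimal (by
      obtain ⟨x, y, hxy⟩ := hnonab
      exact ⟨⊤, inferInstance, x, Subgroup.mem_top x, y, Subgroup.mem_top y, hxy⟩)
  have hmin : ∀ B : Subgroup G, B.Normal → B < N → ∀ x ∈ B, ∀ y ∈ B, x * y = y * x := by
    intro B hB hBN
    by_contra hcon
    push Not at hcon
    exact absurd (hNmin ⟨hB, hcon⟩ hBN.le) (not_le_of_gt hBN)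
  have hQ : Hyper (G ⧸ N) := (h2 N hNab).1
  have hN0 : N ≠ ⊥ := by
    rintro rfl
    obtain ⟨x, hx, y, hy, hxy⟩ := hNab
    rw [Subgroup.mem_bot] at hx hy
    exact hxy (by rw [hx, hy])
  obtain ⟨A, ⟨hAn, hAN⟩, hAmax⟩ := (Set.toFinite {A : Subgroup G | A.Normal ∧ A < N}).exists_maximal
    ⟨⊥, inferInstance, bot_lt_iff_ne_bot.mpr hN0⟩
  have hAab := hmin A hAn hAN
  have hch : ∀ B : Subgroup G, B.Normal → A ≤ B → B ≤ N → B = A ∨ B = N := by
    intro B hB hAB hBN
    rcases hBN.lt_or_eq with h | h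
    · left
      exact le_antisymm (hAmax ⟨hB, h⟩ hAB) hAB
    · right; exact h
  -- `N / A` is abelian
  have hNA : ∀ x ∈ N, ∀ y ∈ N, x * y * x⁻¹ * y⁻¹ ∈ A := by
    intro x hx y hy
    have hlt : ⁅N, N⁆ < N := Group.IsSolvable.commutator_lt_of_ne_bot hN0
    have h4 : A ⊔ ⁅N, N⁆ ≠ N := by
      intro h
      -- `N / A` would be perfect
      have hsol' : Group.IsSolvable (G ⧸ A) := inferInstance
      let π : G →* G ⧸ A := QuotientGroup.mk' A
      have h5 : N.map π ≠ ⊥ := by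
        intro h6
        rw [Subgroup.map_eq_bot_iff, QuotientGroup.ker_mk'] at h6
        exact not_le_of_gt hAN h6
      have h6 : ⁅N.map π, N.map π⁆ < N.map π := Group.IsSolvable.commutator_lt_of_ne_bot h5
      rw [← Subgroup.map_commutator] at h6
      apply h6.ne
      have h7 : (A ⊔ ⁅N, N⁆).map π = N.map π := by rw [h]
      rw [Subgroup.map_sup] at h7
      have h8 : A.map π = ⊥ := by
        rw [Subgroup.map_eq_bot_iff, QuotientGroup.ker_mk']
      rw [h8, bot_sup_eq] at h7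
      exact h7
    have h5 : A ⊔ ⁅N, N⁆ = A := (hch (A ⊔ ⁅N, N⁆) inferInstance le_sup_left
      (sup_le hAN.le hlt.le)).resolve_right h4
    have h6 : ⁅N, N⁆ ≤ A := by rw [← h5]; exact le_sup_right
    exact h6 (Subgroup.commutator_mem_commutator hx hy)
  obtain ⟨p, hp, hpN⟩ := chief_exp N A hAN hNA hch
  obtain ⟨k, hk⟩ := chief_card N A hp hpN
  -- the operators of `A`
  rcases weight_char hρ (cjP A) (fun a : A => ρ a) (by
    rintro ⟨a, ha⟩ ⟨b, hb⟩
    change ρ a * ρ b = ρ b * ρ a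
    rw [← map_mul, ← map_mul, hAab a ha b hb]) (by
    intro g a v
    change ρ ((cjP A g a : A) : G) (ρ g v) = ρ g (ρ a v)
    rw [cjP_apply, ← Module.End.mul_apply, ← Module.End.mul_apply, ← map_mul, ← map_mul]
    congr 2
    group) with hAs | himp
  swap
  · exact imprim_deg h3 himp
  by_cases hNI : Irred (ρ.comp N.subtype)
  · -- prime power degree
    obtain ⟨m, hm⟩ := deg_pow hNI (A.subgroupOf N) (by
      intro a ha
      rw [Subgroup.mem_subgroupOf] at ha
      exact hAs ⟨a, ha⟩) (by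
      intro x y
      rw [Subgroup.mem_subgroupOf]
      exact hNA x x.2 y y.2) hp hk
    rw [Module.finrank_fin_fun] at hm
    exact ⟨p, m, hp, hm⟩
  -- a maximal normal subgroup with reducible restriction
  obtain ⟨K, ⟨hKn, hNK, hKI⟩, hKmax⟩ := (Set.toFinite {K : Subgroup G | K.Normal ∧ N ≤ K ∧
    ¬ Irred (ρ.comp K.subtype)}).exists_maximal ⟨N, hNn, le_rfl, hNI⟩
  have hKt : K ≠ ⊤ := by
    rintro rfl
    apply hKI
    exact ⟨hρ.1, fun W hW => hρ.2 W fun g v hv => hW ⟨g, Subgroup.mem_top g⟩ v hv⟩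
  have hQK : Hyper (G ⧸ K) := Hyper.of_surj (QuotientGroup.map N K (MonoidHom.id G) hNK) (by
    intro y
    induction y using QuotientGroup.induction_on with | _ y => ?_
    exact ⟨(y : G ⧸ N), rfl⟩) hQ
  obtain ⟨K', hK'n, hKK', hKq⟩ := exists_step K hKt hQK
  have hK'I : Irred (ρ.comp K'.subtype) := by
    by_contra hcon
    exact absurd (hKmax ⟨hK'n, hNK.trans hKK'.le, hcon⟩ hKK'.le) (not_le_of_gt hKK')
  rcases weight_char hρ (cjP K) (fun k : K => clsum (ρ.comp K.subtype) k)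
    (fun k l => clsum_comm' _ k l) (fun g k v => clsum_conj ρ K g k v) with hKs | himp
  · exact absurd (homog_irred K K' hKK'.le hKq hK'I hKs) hKI
  · exact imprim_deg h3 himp

/-- the induction step -/
theorem main_step : ∀ (n : ℕ), IH n → ∀ (G : Type) [Group G] [Finite G], Nat.card G = n →
    ∀ χ ∈ Irr G, χ 1 ≠ 1 → χ ∈ TT G := by
  intro n ih G _ _ hn χ hχ hχ1
  classical
  subst hn
  obtain ⟨d, ρ, hρ, rfl⟩ := exists_rep hχ
  by_cases hf : ∀ g, ρ g = 1 → g = 1
  swap
  · -- not faithful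
    push Not at hf
    obtain ⟨g₀, hg₀, hg₁⟩ := hf
    let π : G →* G ⧸ ρ.ker := QuotientGroup.mk' _
    have hπ : Function.Surjective π := QuotientGroup.mk'_surjective _
    obtain ⟨ψ, hψ, hψ1⟩ := descend_irr hπ hρ (by
      intro g hg
      rw [QuotientGroup.ker_mk', MonoidHom.mem_ker] at hg
      exact hg)
    have h1 : ρ.character = fun g => ψ (π g) := funext hψ1
    have h0 : ψ 1 ≠ 1 := by
      intro h
      apply hχ1
      rw [hψ1, map_one, h]
    rw [h1]
    have hlt : Nat.card (G ⧸ ρ.ker) < Nat.card G := by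
      have h2 := Subgroup.card_eq_card_quotient_mul_card_subgroup ρ.ker
      have h3 : 1 < Nat.card ρ.ker := by
        have : Nontrivial ρ.ker := ⟨⟨g₀, MonoidHom.mem_ker.mpr hg₀⟩, 1, fun h =>
          hg₁ (congrArg Subtype.val h)⟩
        exact Finite.one_lt_card
      have h4 : 0 < Nat.card (G ⧸ ρ.ker) := Nat.card_pos
      rw [h2]
      nlinarith
    exact TT.infl hπ (ih _ hlt _ rfl ψ hψ h0)
  -- faithful
  have hd1 : ρ.character 1 = (d : ℂ) := by
    have := ρ.char_one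
    simp [this]
  have hd : d ≠ 1 := by
    rintro rfl
    apply hχ1
    rw [hd1, Nat.cast_one]
  have hd0 : d ≠ 0 := by
    rintro rfl
    have := hρ.1
    obtain ⟨v, hv⟩ := exists_ne (0 : Fin 0 → ℂ)
    exact hv (Subsingleton.elim _ _)
  by_cases h3 : ∀ M : Subgroup G, M ≠ ⊤ → ∀ φ ∈ Irr M, ρ.character = ind M φ → φ 1 = 1
  swap
  · push Not at h3
    obtain ⟨M, hM, φ, hφ, h4, h5⟩ := h3
    rw [h4]
    exact TT.ind (ih _ (card_lt hM) M rfl φ hφ h5)
  by_cases h2 : ∀ (N : Subgroup G) [N.Normal], (∃ x ∈ N, ∃ y ∈ N, x * y ≠ y * x) → Elem (G ⧸ N)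
  swap
  · push Not at h2
    obtain ⟨N, hNn, hN, hQ⟩ := h2
    exact quot_done ih hρ hf N hN hQ
  exact TT.of_gen ⟨G, inferInstance, inferInstance, MonoidHom.id G, d, ρ.character,
    Function.surjective_id, ⟨⟨ρ, (irred_iff ρ).mp hρ, (injective_iff_map_eq_one _).mpr hf, rfl⟩,
      by omega, h2, h3, fun hs => deg_prime_power hρ hd h2 h3⟩, rfl⟩

theorem ih_all : ∀ n : ℕ, IH n := by
  intro n
  induction n with
  | zero => intro m hm; omega
  | succ n ihn =>
    intro m hm G _ _ hG χ hχ h1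
    rcases Nat.lt_succ_iff_lt_or_eq.mp hm with h | h
    · exact ihn m h G hG χ hχ h1
    · subst h
      exact main_step _ ihn G hG χ hχ h1

/-- **Main theorem.** -/
theorem main_theorem {χ : G → ℂ} (hχ : χ ∈ Irr G) (h1 : χ 1 ≠ 1) : χ ∈ TT G :=
  ih_all (Nat.card G + 1) _ (Nat.lt_succ_self _) G rfl χ hχ h1

end Pool.Agent.H11.PP
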