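import Mathlib
import Pool.Agent.H11.PP.Main

/-!
# Prime power degrees cannot be avoided: the degree lemma
-/

set_option autoImplicit false
set_option linter.unusedSectionVars false

namespace Pool.Agent.H11.PP

open Pool.Agent.R389 Pool.Agent.W446.AS Pool.Agent.H541R3.ART

/-- the sum of the values of the linear characters of an abelian group -/
lemma sum_dual {L : Type} [CommGroup L] [Finite L] [Fintype (L →* ℂˣ)] (y : L) [Decidable (y = 1)] :
    ∑ ψ : L →* ℂˣ, ((ψ y : ℂˣ) : ℂ) = if y = 1 then (Nat.card L : ℂ) else 0 := by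
  classical
  split_ifs with h
  · subst h
    simp only [map_one, Units.val_one, Finset.sum_const, Finset.card_univ, nsmul_eq_mul, mul_one]
    have h1 : Nat.card (L →* ℂˣ) = Nat.card L :=
      CommGroup.card_monoidHom_of_hasEnoughRootsOfUnity L ℂ
    rw [← Nat.card_eq_fintype_card, h1]
  · obtain ⟨φ, hφ⟩ := CommGroup.exists_apply_ne_one_of_hasEnoughRootsOfUnity L ℂ h
    have h1 : ∑ ψ : L →* ℂˣ, ((ψ y : ℂˣ) : ℂ) = ((φ y : ℂˣ) : ℂ) * ∑ ψ : L →* ℂˣ, ((ψ y : ℂˣ) : ℂ) := by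
      rw [Finset.mul_sum, ← Equiv.sum_comp (Equiv.mulLeft φ)]
      refine Finset.sum_congr rfl fun ψ _ => ?_
      simp
    have h2 : (1 - ((φ y : ℂˣ) : ℂ)) * ∑ ψ : L →* ℂˣ, ((ψ y : ℂˣ) : ℂ) = 0 := by
      rw [sub_mul, one_mul, ← h1, sub_self]
    rcases mul_eq_zero.mp h2 with h3 | h3
    · exfalso
      apply hφ
      apply Units.ext
      rw [Units.val_one]
      exact (sub_eq_zero.mp h3).symm
    · exact h3

/-- the degree lemma -/
lemma deg_sq {U : Type} [Group U] [Finite U] {L : Type} [CommGroup L] [Finite L] (π : U →* L)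
    (hπ : Function.Surjective π) {ρ : U → ℂ} (hρ : ρ ∈ Irr U) (u₀ : U)
    (hgen : ∀ y : L, y ∈ Subgroup.zpowers (π u₀)) (h0 : ρ u₀ ≠ 0) (Z : Subgroup U)
    (hZ : Z ≤ π.ker) (hout : ∀ g ∈ π.ker, g ∉ Z → ρ g = 0)
    (hin : ∀ z ∈ Z, ρ z * ρ z⁻¹ = ρ 1 ^ 2) :
    ρ 1 ^ 2 * Nat.card Z = Nat.card π.ker := by
  classical
  have : Fintype U := Fintype.ofFinite U
  have : Fintype (L →* ℂˣ) := Fintype.ofFinite _
  have hL : (Nat.card L : ℂ) ≠ 0 := card_ne
  have hcard : (Nat.card U : ℂ) = Nat.card L * Nat.card π.ker := by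
    have h1 := π.ker.card_mul_index
    have h2 : π.ker.index = Nat.card L := by
      rw [Subgroup.index_ker, MonoidHom.range_eq_top.mpr hπ, Subgroup.card_top]
    rw [h2] at h1
    rw [← h1]
    push_cast
    ring
  -- the sum over the kernel
  have h1 : ∑ g : U, (if π g = 1 then ρ g * ρ g⁻¹ else 0) = ρ 1 ^ 2 * Nat.card Z := by
    have h2 : ∀ g : U, (if π g = 1 then ρ g * ρ g⁻¹ else 0) = if g ∈ Z then ρ 1 ^ 2 else 0 := by
      intro g
      by_cases hg : g ∈ Z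
      · have hk : π g = 1 := hZ hg
        rw [if_pos hg, if_pos hk, hin g hg]
      · rw [if_neg hg]
        split_ifs with h3
        · rw [hout g h3 hg, zero_mul]
        · rfl
    rw [Finset.sum_congr rfl (fun g _ => h2 g), ← Finset.sum_filter, Finset.sum_const,
      nsmul_eq_mul, mul_comm]
    congr 2
    rw [Nat.card_eq_fintype_card, Fintype.card_subtype]
  have h2 : (Nat.card L : ℂ) * ∑ g : U, (if π g = 1 then ρ g * ρ g⁻¹ else 0)
      = ∑ ψ : L →* ℂˣ, ∑ g : U, ρ g * ((ψ (π g) : ℂˣ) : ℂ) * ρ g⁻¹ := by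
    rw [Finset.sum_comm, Finset.mul_sum]
    refine Finset.sum_congr rfl fun g _ => ?_
    have h3 : ∑ ψ : L →* ℂˣ, ρ g * ((ψ (π g) : ℂˣ) : ℂ) * ρ g⁻¹
        = (∑ ψ : L →* ℂˣ, ((ψ (π g) : ℂˣ) : ℂ)) * (ρ g * ρ g⁻¹) := by
      rw [Finset.sum_mul]
      exact Finset.sum_congr rfl fun ψ _ => by ring
    rw [h3, sum_dual]
    split_ifs
    · rfl
    · ring
  have h3 : ∀ ψ : L →* ℂˣ, ∑ g : U, ρ g * ((ψ (π g) : ℂˣ) : ℂ) * ρ g⁻¹
      = if ψ = 1 then (Nat.card U : ℂ) else 0 := by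
    intro ψ
    split_ifs with h4
    · subst h4
      rw [← pair_self hρ]
      exact Finset.sum_congr rfl fun g _ => by simp
    · have h5 := irr_twist hρ (ψ.comp π)
      refine pair_ne h5 hρ fun h6 => h4 ?_
      have h7 := congrFun h6 u₀
      have h8 : ψ (π u₀) = 1 := by
        apply Units.ext
        rw [Units.val_one]
        have h9 : ρ u₀ * ((ψ (π u₀) : ℂˣ) : ℂ) = ρ u₀ := h7
        exact mul_left_cancel₀ h0 (h9.trans (mul_one _).symm)
      ext y
      obtain ⟨k, hk⟩ := Subgroup.mem_zpowers_iff.mp (hgen y)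
      rw [← hk, map_zpow, h8, one_zpow]
      rfl
  rw [Finset.sum_congr rfl (fun ψ _ => h3 ψ), Finset.sum_ite_eq' Finset.univ (1 : L →* ℂˣ),
    if_pos (Finset.mem_univ _), h1, hcard] at h2
  exact mul_left_cancel₀ hL h2

end Pool.Agent.H11.PP
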