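import Mathlib
import Pool.Agent.H11.PP.Sharp

/-!
# A group of extraspecial type with a cyclic group of automorphisms
-/

set_option autoImplicit false
set_option linter.unusedSectionVars false

namespace Pool.Agent.H11.PP

open Pool.Agent.R389 Pool.Agent.W446.AS Pool.Agent.H541R3.ART

variable {K : Type} [Field K] (f : K →+* K)

/-- the elements of norm one -/
def LL : Subgroup Kˣ where
  carrier := {z | f z * z = 1}
  one_mem' := by simp
  mul_mem' := by
    intro a b ha hb
    have ha' : f a * a = 1 := ha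
    have hb' : f b * b = 1 := hb
    change f ((a * b : Kˣ) : K) * ((a * b : Kˣ) : K) = 1
    rw [Units.val_mul, map_mul]
    linear_combination (f b * b) * ha' + hb'
  inv_mem' := by
    intro a ha
    have ha' : f a * a = 1 := ha
    change f ((a⁻¹ : Kˣ) : K) * ((a⁻¹ : Kˣ) : K) = 1
    have h1 : ((a⁻¹ : Kˣ) : K) = (a : K)⁻¹ := by simp
    rw [h1, map_inv₀, ← mul_inv, ha', inv_one]

lemma LL.norm (z : LL f) : f ((z : Kˣ) : K) * ((z : Kˣ) : K) = 1 := z.2

/-- the elements of the group -/
@[ext]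
structure HG where
  /-- the first coordinate -/
  x : K
  /-- the second coordinate -/
  t : K
  /-- the third coordinate -/
  l : LL f

variable {f}

/-- the third coordinate as an element of `K` -/
abbrev HG.c (a : HG f) : K := ((a.l : Kˣ) : K)

instance : Mul (HG f) := ⟨fun a b => ⟨a.x + a.c * b.x, a.t + b.t + f a.x * a.c * b.x, a.l * b.l⟩⟩

instance : One (HG f) := ⟨⟨0, 0, 1⟩⟩

instance : Inv (HG f) := ⟨fun a => ⟨-(((a.l⁻¹ : LL f) : Kˣ) : K) * a.x, f a.x * a.x - a.t, a.l⁻¹⟩⟩

lemma HG.mul_x (a b : HG f) : (a * b).x = a.x + a.c * b.x := rfl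

lemma HG.mul_t (a b : HG f) : (a * b).t = a.t + b.t + f a.x * a.c * b.x := rfl

lemma HG.mul_l (a b : HG f) : (a * b).l = a.l * b.l := rfl

lemma HG.one_x : (1 : HG f).x = 0 := rfl

lemma HG.one_t : (1 : HG f).t = 0 := rfl

lemma HG.one_l : (1 : HG f).l = 1 := rfl

lemma HG.inv_x (a : HG f) : (a⁻¹).x = -(((a.l⁻¹ : LL f) : Kˣ) : K) * a.x := rfl

lemma HG.inv_t (a : HG f) : (a⁻¹).t = f a.x * a.x - a.t := rfl

lemma HG.inv_l (a : HG f) : (a⁻¹).l = a.l⁻¹ := rfl

instance : Group (HG f) := Group.ofLeftAxioms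
  (by
    intro a b c
    have ha := LL.norm f a.l
    ext
    · change (a.x + a.c * b.x) + (((a.l * b.l : LL f) : Kˣ) : K) * c.x
        = a.x + a.c * (b.x + b.c * c.x)
      rw [Subgroup.coe_mul, Units.val_mul]
      ring
    · change (a.t + b.t + f a.x * a.c * b.x) + c.t
        + f (a.x + a.c * b.x) * (((a.l * b.l : LL f) : Kˣ) : K) * c.x
        = a.t + (b.t + c.t + f b.x * b.c * c.x) + f a.x * a.c * (b.x + b.c * c.x)
      rw [Subgroup.coe_mul, Units.val_mul, map_add, map_mul]
      linear_combination (f b.x * b.c * c.x) * ha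
    · change ((a.l * b.l * c.l : LL f) : Kˣ).val = ((a.l * (b.l * c.l) : LL f) : Kˣ).val
      rw [mul_assoc])
  (by
    intro a
    ext
    · change (0 : K) + (((1 : LL f) : Kˣ) : K) * a.x = a.x
      simp
    · change (0 : K) + a.t + f 0 * (((1 : LL f) : Kˣ) : K) * a.x = a.t
      simp
    · change ((1 * a.l : LL f) : Kˣ).val = _
      rw [one_mul])
  (by
    intro a
    have ha := LL.norm f a.l⁻¹
    ext
    · change -(((a.l⁻¹ : LL f) : Kˣ) : K) * a.x + (((a.l⁻¹ : LL f) : Kˣ) : K) * a.x = 0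
      ring
    · change (f a.x * a.x - a.t) + a.t
        + f (-(((a.l⁻¹ : LL f) : Kˣ) : K) * a.x) * (((a.l⁻¹ : LL f) : Kˣ) : K) * a.x = 0
      rw [map_mul, map_neg]
      linear_combination (-(f a.x * a.x)) * ha
    · change ((a.l⁻¹ * a.l : LL f) : Kˣ).val = _
      rw [inv_mul_cancel]
      rfl)

/-- the projection to the third coordinate -/
def HG.pl : HG f →* LL f where
  toFun a := a.l
  map_one' := rfl
  map_mul' _ _ := rfl

lemma HG.pl_apply (a : HG f) : HG.pl a = a.l := rfl

/-- the centre -/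
def HG.z (t : K) : HG f := ⟨0, t, 1⟩

lemma HG.z_comm (t : K) (a : HG f) : a * HG.z t = HG.z t * a := by
  ext
  · change a.x + a.c * 0 = 0 + (((1 : LL f) : Kˣ) : K) * a.x
    simp
  · change a.t + t + f a.x * a.c * 0 = t + a.t + f 0 * (((1 : LL f) : Kˣ) : K) * a.x
    simp [add_comm]
  · change ((a.l * 1 : LL f) : Kˣ).val = ((1 * a.l : LL f) : Kˣ).val
    simp

lemma HG.mul_z (t : K) (a : HG f) : a * HG.z t = ⟨a.x, a.t + t, a.l⟩ := by
  ext
  · change a.x + a.c * 0 = a.x
    simp
  · change a.t + t + f a.x * a.c * 0 = a.t + t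
    simp
  · change ((a.l * 1 : LL f) : Kˣ).val = _
    simp

lemma HG.z_mul_z (s t : K) : (HG.z s * HG.z t : HG f) = HG.z (s + t) := by
  rw [HG.mul_z]
  rfl

instance [Finite K] : Finite (HG f) := by
  let j : HG f → K × K × Kˣ := fun a => (a.x, a.t, (a.l : Kˣ))
  refine Finite.of_injective j ?_
  intro a b h
  have h1 := congrArg Prod.fst h
  have h2 := congrArg (fun u => u.2.1) h
  have h3 := congrArg (fun u => u.2.2) h
  ext
  · exact h1
  · exact h2
  · have h4 : (a.l : Kˣ) = (b.l : Kˣ) := h3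
    rw [h4]

/-- the kernel of the projection, mapped to the first coordinate -/
def HG.px : (HG.pl (f := f)).ker →* Multiplicative K where
  toFun a := Multiplicative.ofAdd a.1.x
  map_one' := rfl
  map_mul' a b := by
    have h1 : a.1.l = 1 := a.2
    change Multiplicative.ofAdd (a.1.x + a.1.c * b.1.x) = _
    rw [HG.c, h1]
    simp [ofAdd_add]

instance : Group.IsSolvable (HG f) := by
  have h1 : Group.IsSolvable (HG.pl (f := f)).ker := by
    have h2 : Group.IsSolvable (HG.px (f := f)).ker := by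
      refine Group.isSolvable_of_comm fun a b => ?_
      apply Subtype.ext
      apply Subtype.ext
      have ha1 : a.1.1.l = 1 := a.1.2
      have ha2 : a.1.1.x = 0 := a.2
      have h3 : (a.1.1 : HG f) = HG.z a.1.1.t := by
        ext
        · exact ha2
        · rfl
        · rw [ha1]
          rfl
      change a.1.1 * b.1.1 = b.1.1 * a.1.1
      rw [h3, HG.z_comm]
    exact Group.isSolvable_of_ker_le_range (HG.px (f := f)).ker.subtype (HG.px (f := f))
      (by rw [Subgroup.range_subtype])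
  exact Group.isSolvable_of_ker_le_range (HG.pl (f := f)).ker.subtype (HG.pl (f := f))
      (by rw [Subgroup.range_subtype])

end Pool.Agent.H11.PP
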