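import Mathlib
import Pool.Agent.H11.PP.HGrp

/-!
# The characters of the subgroups
-/

set_option autoImplicit false
set_option linter.unusedSectionVars false

namespace Pool.Agent.H11.PP

open Pool.Agent.R389 Pool.Agent.W446.AS Pool.Agent.H541R3.ART

/-- irreducible characters of abelian groups are linear -/
lemma deg_abelian {G : Type} [Group G] [Finite G] (hc : ∀ a b : G, a * b = b * a) {χ : G → ℂ}
    (hχ : χ ∈ Irr G) : χ 1 = 1 := by
  obtain ⟨n, ρ, hρ, rfl⟩ := hχ
  have : IsMulCommutative G := ⟨⟨hc⟩⟩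
  have h1 := Representation.IsIrreducible.finrank_eq_one_of_isMulCommutative ρ
  rw [ρ.char_one, h1]
  simp

variable {K : Type} [Field K] {f : K →+* K}

/-- the first coordinates of the elements of a subgroup with third coordinate one -/
def VH (H : Subgroup (HG f)) : AddSubgroup K where
  carrier := {x | ∃ t, (⟨x, t, 1⟩ : HG f) ∈ H}
  zero_mem' := ⟨0, H.one_mem⟩
  add_mem' := by
    rintro x y ⟨t, ht⟩ ⟨s, hs⟩
    refine ⟨t + s + f x * (((1 : LL f) : Kˣ) : K) * y, ?_⟩
    have h1 := H.mul_mem ht hs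
    have h2 : (⟨x, t, 1⟩ : HG f) * ⟨y, s, 1⟩
        = ⟨x + y, t + s + f x * (((1 : LL f) : Kˣ) : K) * y, 1⟩ := by
      ext
      · change x + (((1 : LL f) : Kˣ) : K) * y = x + y
        simp
      · rfl
      · change ((1 * 1 : LL f) : Kˣ).val = _
        rw [mul_one]
    rwa [h2] at h1
  neg_mem' := by
    rintro x ⟨t, ht⟩
    refine ⟨f x * x - t, ?_⟩
    have h1 := H.inv_mem ht
    have h2 : (⟨x, t, 1⟩ : HG f)⁻¹ = ⟨-x, f x * x - t, 1⟩ := by
      ext
      · change -(((1⁻¹ : LL f) : Kˣ) : K) * x = -x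
        simp
      · rfl
      · change ((1⁻¹ : LL f) : Kˣ).val = _
        rw [inv_one]
    rwa [h2] at h1

lemma VH_stable (H : Subgroup (HG f)) {h : HG f} (hh : h ∈ H) {x : K} (hx : x ∈ VH H) :
    h.c * x ∈ VH H := by
  obtain ⟨t, ht⟩ := hx
  refine ⟨t + f h.x * h.c * x - f (h.c * x) * h.x, ?_⟩
  have h1 := H.mul_mem (H.mul_mem hh ht) (H.inv_mem hh)
  have h2 : h * ⟨x, t, 1⟩ * h⁻¹ = ⟨h.c * x, t + f h.x * h.c * x - f (h.c * x) * h.x, 1⟩ := by
    rw [mul_inv_eq_iff_eq_mul]
    ext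
    · change h.x + h.c * x = h.c * x + (((1 : LL f) : Kˣ) : K) * h.x
      simp [add_comm]
    · change h.t + t + f h.x * h.c * x = (t + f h.x * h.c * x - f (h.c * x) * h.x) + h.t
        + f (h.c * x) * (((1 : LL f) : Kˣ) : K) * h.x
      simp only [OneMemClass.coe_one, Units.val_one]
      ring
    · change ((h.l * 1 : LL f) : Kˣ).val = ((1 * h.l : LL f) : Kˣ).val
      rw [mul_one, one_mul]
  rwa [h2] at h1

/-- the characters of the subgroups -/
theorem sub_deg [Finite K] (hff : ∀ x, f (f x) = x) (c₀ : K) (μ : K → ℂ)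
    (hμ : μ (c₀ - f c₀) ≠ 1) (hμn : ∀ t, μ t * μ (-t) = 1)
    (hst : ∀ V : AddSubgroup K, (∀ z : LL f, ∀ v ∈ V, ((z : Kˣ) : K) * v ∈ V) → V = ⊥ ∨ V = ⊤)
    {q : ℕ} (hq : Nat.card K = q ^ 2) (H : Subgroup (HG f)) {ρ : H → ℂ} (hρ : ρ ∈ Irr H)
    (u₀ : H) (hgen : ∀ y : LL f, y ∈ Subgroup.zpowers u₀.1.l) (h0 : ρ u₀ ≠ 0)
    (hz : ∀ (t : K) (ht : HG.z t ∈ H) (g : H), ρ (g * ⟨HG.z t, ht⟩) = μ t * ρ g) :
    ρ 1 = q ∨ (ρ 1 = 1 ∧ H ≠ ⊤) := by
  classical
  let π : H →* LL f := HG.pl.comp H.subtype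
  have hπ : Function.Surjective π := by
    intro y
    obtain ⟨k, hk⟩ := Subgroup.mem_zpowers_iff.mp (hgen y)
    refine ⟨u₀ ^ k, ?_⟩
    rw [map_zpow]
    exact hk
  have hV := hst (VH H) (by
    intro z v hv
    obtain ⟨h, hh⟩ := hπ z
    have h1 := VH_stable H h.2 hv
    have h2 : h.1.l = z := hh
    rw [HG.c, h2] at h1
    exact h1)
  rcases hV with hV | hV
  · right
    refine ⟨?_, ?_⟩
    · refine deg_abelian ?_ hρ
      have : IsCyclic (LL f) := ⟨⟨u₀.1.l, hgen⟩⟩
      suffices hk : π.ker ≤ Subgroup.center H from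
        (π.isMulCommutative_of_isCyclic_of_ker_le_center hk).is_comm.comm
      intro h hh
      have h1 : h.1.l = 1 := hh
      have h2 : h.1.x ∈ VH H := by
        refine ⟨h.1.t, ?_⟩
        have h3 : (⟨h.1.x, h.1.t, 1⟩ : HG f) = h.1 := by
          ext
          · rfl
          · rfl
          · rw [h1]
        rw [h3]
        exact h.2
      rw [hV, AddSubgroup.mem_bot] at h2
      have h3 : h.1 = HG.z h.1.t := by
        ext
        · exact h2
        · rfl
        · rw [h1]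
          rfl
      rw [Subgroup.mem_center_iff]
      intro g
      apply Subtype.ext
      change g.1 * h.1 = h.1 * g.1
      rw [h3, HG.z_comm]
    · rintro rfl
      have h1 : (1 : K) ∈ VH (⊤ : Subgroup (HG f)) := ⟨0, Subgroup.mem_top _⟩
      rw [hV, AddSubgroup.mem_bot] at h1
      exact one_ne_zero h1
  · left
    -- the subgroup `Z`
    let Z : Subgroup H :=
      { carrier := {h | h.1.x = 0 ∧ h.1.l = 1}
        one_mem' := ⟨rfl, rfl⟩
        mul_mem' := by
          rintro a b ⟨ha1, ha2⟩ ⟨hb1, hb2⟩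
          refine ⟨?_, ?_⟩
          · change a.1.x + a.1.c * b.1.x = 0
            rw [ha1, hb1, mul_zero, add_zero]
          · change a.1.l * b.1.l = 1
            rw [ha2, hb2, mul_one]
        inv_mem' := by
          rintro a ⟨ha1, ha2⟩
          refine ⟨?_, ?_⟩
          · change -(((a.1.l⁻¹ : LL f) : Kˣ) : K) * a.1.x = 0
            rw [ha1, mul_zero]
          · change a.1.l⁻¹ = 1
            rw [ha2, inv_one] }
    have hZz : ∀ h ∈ Z, h.1 = HG.z h.1.t := by
      rintro h ⟨h1, h2⟩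
      ext
      · exact h1
      · rfl
      · rw [h2]
        rfl
    have hzZ : ∀ (h : H) (t : K), h.1 = HG.z t → h ∈ Z := by
      intro h t hh
      refine ⟨?_, ?_⟩
      · rw [hh]
        rfl
      · rw [hh]
        rfl
    have hzρ : ∀ (h : H) (t : K) (hh : h.1 = HG.z t) (g : H), ρ (g * h) = μ t * ρ g := by
      intro h t hh g
      have h1 : HG.z t ∈ H := by
        rw [← hh]
        exact h.2
      have h2 : h = ⟨HG.z t, h1⟩ := Subtype.ext hh
      rw [h2]
      exact hz t h1 g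
    have hZker : Z ≤ π.ker := fun h hh => hh.2
    have hout : ∀ g ∈ π.ker, g ∉ Z → ρ g = 0 := by
      intro g hg hgZ
      have h1 : g.1.l = 1 := hg
      have h2 : g.1.x ≠ 0 := fun h => hgZ ⟨h, h1⟩
      have hfx : f g.1.x ≠ 0 := by
        rw [Ne, map_eq_zero]
        exact h2
      -- an element `h` with `f (g.x) h.x = c₀`
      have h3 : c₀ / f g.1.x ∈ VH H := by
        rw [hV]
        trivial
      obtain ⟨s, hs⟩ := h3
      let h : H := ⟨⟨c₀ / f g.1.x, s, 1⟩, hs⟩
      -- the commutator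
      have h4 : (h * g * h⁻¹ * g⁻¹).1 = HG.z (f c₀ - c₀) := by
        change h.1 * g.1 * h.1⁻¹ * g.1⁻¹ = _
        rw [mul_inv_eq_iff_eq_mul, mul_inv_eq_iff_eq_mul, ← HG.z_comm, HG.mul_z]
        ext
        · change c₀ / f g.1.x + (((1 : LL f) : Kˣ) : K) * g.1.x = g.1.x + g.1.c * (c₀ / f g.1.x)
          rw [HG.c, h1]
          simp [add_comm]
        · change s + g.1.t + f (c₀ / f g.1.x) * (((1 : LL f) : Kˣ) : K) * g.1.x
            = g.1.t + (f c₀ - c₀) + s + f g.1.x * g.1.c * (c₀ / f g.1.x)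
          rw [HG.c, h1, map_div₀, hff]
          simp only [OneMemClass.coe_one, Units.val_one, mul_one]
          field_simp
          ring
        · change ((1 * g.1.l : LL f) : Kˣ).val = ((g.1.l * 1 : LL f) : Kˣ).val
          rw [one_mul, mul_one]
      have h5 : h * g * h⁻¹ = g * (h * g * h⁻¹ * g⁻¹) := by
        apply Subtype.ext
        change _ = g.1 * (h * g * h⁻¹ * g⁻¹).1
        rw [h4, HG.z_comm, ← h4]
        change h.1 * g.1 * h.1⁻¹ = h.1 * g.1 * h.1⁻¹ * g.1⁻¹ * g.1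
        rw [inv_mul_cancel_right]
      have h6 : ρ g = μ (f c₀ - c₀) * ρ g := by
        rw [← hzρ _ _ h4 g, ← h5, Irr.conj hρ]
      by_contra h7
      apply hμ
      have h8 : μ (f c₀ - c₀) = 1 := mul_right_cancel₀ h7 (h6.symm.trans (one_mul _).symm)
      have h9 := hμn (c₀ - f c₀)
      rw [neg_sub, h8, mul_one] at h9
      exact h9
    have hin : ∀ z ∈ Z, ρ z * ρ z⁻¹ = ρ 1 ^ 2 := by
      intro z hzz
      have h1 := hzρ z _ (hZz z hzz) 1
      have h2 : (z⁻¹).1 = HG.z (-z.1.t) := by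
        change (z.1)⁻¹ = _
        rw [inv_eq_iff_mul_eq_one, hZz z hzz, HG.z_mul_z]
        change HG.z (z.1.t + -z.1.t) = _
        rw [add_neg_cancel]
        rfl
      have h3 := hzρ z⁻¹ _ h2 1
      rw [one_mul] at h1 h3
      rw [h1, h3]
      linear_combination (ρ 1 ^ 2) * hμn z.1.t
    have hsq := deg_sq π hπ hρ u₀ hgen h0 Z hZker hout hin
    -- the order of the kernel
    let κ : π.ker →* Multiplicative K :=
      { toFun := fun a => Multiplicative.ofAdd a.1.1.x
        map_one' := rfl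
        map_mul' := by
          intro a b
          have h1 : a.1.1.l = 1 := a.2
          change Multiplicative.ofAdd (a.1.1.x + a.1.1.c * b.1.1.x) = _
          rw [HG.c, h1]
          simp [ofAdd_add] }
    have hκ : Function.Surjective κ := by
      intro y
      have h1 : Multiplicative.toAdd y ∈ VH H := by
        rw [hV]
        trivial
      obtain ⟨t, ht⟩ := h1
      exact ⟨⟨⟨_, ht⟩, rfl⟩, rfl⟩
    have hcκ : Nat.card π.ker = Nat.card Z * q ^ 2 := by
      rw [← κ.ker.card_mul_index, Subgroup.index_ker, MonoidHom.range_eq_top.mpr hκ,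
        Subgroup.card_top, ← hq]
      congr 1
      refine Nat.card_congr ⟨fun a => ⟨a.1.1, a.2, a.1.2⟩, fun b => ⟨⟨b.1, b.2.2⟩, b.2.1⟩, ?_, ?_⟩
      · intro a
        rfl
      · intro b
        rfl
    rw [hcκ] at hsq
    have hZ0 : (Nat.card Z : ℂ) ≠ 0 := card_ne
    obtain ⟨d, hd, hd1⟩ := irr_deg_pos hρ
    rw [hd1] at hsq ⊢
    push_cast at hsq
    have h8 : ((d ^ 2 : ℕ) : ℂ) = ((q ^ 2 : ℕ) : ℂ) := by
      push_cast
      apply mul_right_cancel₀ hZ0
      rw [hsq]
      ring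
    have h9 : d ^ 2 = q ^ 2 := by exact_mod_cast h8
    have h10 : d = q := by
      exact Nat.pow_left_injective (by norm_num : (2 : ℕ) ≠ 0) h9
    rw [h10]

end Pool.Agent.H11.PP
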