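import Mathlib
import Pool.Agent.H11.PP.HSub

/-!
# A functional which separates the characters of degree `q`
-/

set_option autoImplicit false
set_option linter.unusedSectionVars false

namespace Pool.Agent.H11.PP

open Pool.Agent.R389 Pool.Agent.W446.AS Pool.Agent.H541R3.ART

variable {K : Type} [Field K] {f : K →+* K}

open Classical in
/-- the function on the coset -/
noncomputable def phi (μ : AddChar K ℂ) (z₀ : LL f) (h : HG f) : ℂ :=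
  if h.x = 0 ∧ h.l = z₀ then μ h.t else 0

/-- the class function -/
noncomputable def FF (μ : AddChar K ℂ) (z₀ : LL f) (g : HG f) : ℂ :=
  ∑ᶠ y : HG f, phi μ z₀ (y⁻¹ * g * y)

variable (μ : AddChar K ℂ) (z₀ : LL f)

lemma FF_eq [Fintype (HG f)] (g : HG f) : FF μ z₀ g = ∑ y : HG f, phi μ z₀ (y⁻¹ * g * y) := by
  rw [FF, finsum_eq_sum_of_fintype]

lemma FF_class [Finite K] (g x : HG f) : FF μ z₀ (x * g * x⁻¹) = FF μ z₀ g := by
  classical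
  have : Fintype (HG f) := Fintype.ofFinite _
  rw [FF_eq, FF_eq, ← Equiv.sum_comp (Equiv.mulLeft x)]
  refine Finset.sum_congr rfl fun y _ => ?_
  congr 1
  simp only [Equiv.coe_mulLeft]
  group

lemma FF_z [Finite K] (g : HG f) (t : K) : FF μ z₀ (g * HG.z t) = μ t * FF μ z₀ g := by
  classical
  have : Fintype (HG f) := Fintype.ofFinite _
  rw [FF_eq, FF_eq, Finset.mul_sum]
  refine Finset.sum_congr rfl fun y _ => ?_
  have h1 : y⁻¹ * (g * HG.z t) * y = (y⁻¹ * g * y) * HG.z t := by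
    rw [mul_assoc y⁻¹, mul_assoc g, ← HG.z_comm]
    group
  rw [h1, HG.mul_z]
  set w := y⁻¹ * g * y
  by_cases hw : w.x = 0 ∧ w.l = z₀
  · rw [phi, phi, if_pos hw, if_pos hw, AddChar.map_add_eq_mul, mul_comm]
  · rw [phi, phi, if_neg hw, if_neg hw, mul_zero]

lemma FF_l [Finite K] {g : HG f} (hg : FF μ z₀ g ≠ 0) : g.l = z₀ := by
  classical
  have : Fintype (HG f) := Fintype.ofFinite _
  rw [FF_eq] at hg
  obtain ⟨y, -, hy⟩ := Finset.exists_ne_zero_of_sum_ne_zero hg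
  have h1 : (y⁻¹ * g * y).l = z₀ := by
    by_contra h
    apply hy
    rw [phi, if_neg fun h' => h h'.2]
  have h2 : (y⁻¹ * g * y).l = g.l := by
    change y.l⁻¹ * g.l * y.l = g.l
    rw [mul_comm y.l⁻¹, inv_mul_cancel_right]
  rw [← h1, h2]

lemma FF_ne [Finite K] : FF μ z₀ ⟨0, 0, z₀⟩ ≠ 0 := by
  classical
  have : Fintype (HG f) := Fintype.ofFinite _
  rw [FF_eq]
  have h1 : ∀ y : HG f, phi μ z₀ (y⁻¹ * ⟨0, 0, z₀⟩ * y)
      = if (y⁻¹ * ⟨0, 0, z₀⟩ * y).x = 0 ∧ (y⁻¹ * ⟨0, 0, z₀⟩ * y).l = z₀ then ((1 : ℕ) : ℂ)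
        else ((0 : ℕ) : ℂ) := by
    intro y
    rw [phi]
    split_ifs with h
    · have h2 : (⟨0, 0, z₀⟩ : HG f) * y = y * (y⁻¹ * ⟨0, 0, z₀⟩ * y) := by group
      have h3 := congrArg HG.t h2
      have h4 : ((⟨0, 0, z₀⟩ : HG f) * y).t = y.t := by
        change 0 + y.t + f 0 * _ * y.x = y.t
        rw [map_zero]
        ring
      rw [h4, HG.mul_t, h.1, mul_zero, add_zero] at h3
      have h5 : (y⁻¹ * ⟨0, 0, z₀⟩ * y).t = 0 := by
        have h6 := h3.symm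
        rwa [add_eq_left] at h6
      rw [h5, AddChar.map_zero_eq_one, Nat.cast_one]
    · rw [Nat.cast_zero]
  rw [Finset.sum_congr rfl (fun y _ => h1 y)]
  have h2 : ∀ y : HG f, (if (y⁻¹ * ⟨0, 0, z₀⟩ * y).x = 0 ∧ (y⁻¹ * ⟨0, 0, z₀⟩ * y).l = z₀
        then ((1 : ℕ) : ℂ) else ((0 : ℕ) : ℂ))
      = ((if (y⁻¹ * ⟨0, 0, z₀⟩ * y).x = 0 ∧ (y⁻¹ * ⟨0, 0, z₀⟩ * y).l = z₀ then 1 else 0 : ℕ) : ℂ) := by
    intro y
    split_ifs <;> rfl
  rw [Finset.sum_congr rfl (fun y _ => h2 y), ← Nat.cast_sum, Nat.cast_ne_zero]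
  have h3 : (if ((1 : HG f)⁻¹ * ⟨0, 0, z₀⟩ * 1).x = 0 ∧ ((1 : HG f)⁻¹ * ⟨0, 0, z₀⟩ * 1).l = z₀
      then 1 else 0 : ℕ) = 1 := by
    rw [if_pos]
    rw [inv_one, one_mul, mul_one]
    exact ⟨rfl, rfl⟩
  have h4 := Finset.single_le_sum (f := fun y : HG f =>
    (if (y⁻¹ * ⟨0, 0, z₀⟩ * y).x = 0 ∧ (y⁻¹ * ⟨0, 0, z₀⟩ * y).l = z₀ then 1 else 0 : ℕ))
    (fun _ _ => Nat.zero_le _) (Finset.mem_univ (1 : HG f))
  rw [h3] at h4
  omega

/-- the pairing with the characters of the subgroups -/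
theorem pair_deg [Finite K] (hff : ∀ x, f (f x) = x) (c₀ : K) (hμ : μ (c₀ - f c₀) ≠ 1)
    (hst : ∀ V : AddSubgroup K, (∀ z : LL f, ∀ v ∈ V, ((z : Kˣ) : K) * v ∈ V) → V = ⊥ ∨ V = ⊤)
    {q : ℕ} (hq : Nat.card K = q ^ 2) (hgen : ∀ y : LL f, y ∈ Subgroup.zpowers z₀)
    (H : Subgroup (HG f)) {ρ : H → ℂ} (hρ : ρ ∈ Irr H)
    (hpr : pr (fun h : H => FF μ z₀ h) ρ ≠ 0) :
    ρ 1 = q ∨ (ρ 1 = 1 ∧ H ≠ ⊤) := by
  classical
  have : Fintype H := Fintype.ofFinite H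
  have hsum : ∑ h : H, FF μ z₀ h * ρ h⁻¹ ≠ 0 := by
    intro h
    apply hpr
    rw [pr_eq, h, mul_zero]
  obtain ⟨h, -, hh⟩ := Finset.exists_ne_zero_of_sum_ne_zero hsum
  have h1 : FF μ z₀ h ≠ 0 := left_ne_zero_of_mul hh
  have h2 : ρ h⁻¹ ≠ 0 := right_ne_zero_of_mul hh
  have h3 : (h⁻¹).1.l = z₀⁻¹ := by
    change h.1.l⁻¹ = z₀⁻¹
    rw [FF_l μ z₀ h1]
  refine sub_deg hff c₀ (fun t => μ t) hμ (fun t => ?_) hst hq H hρ h⁻¹ (fun y => ?_) h2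
    (fun t ht g => ?_)
  · rw [← AddChar.map_add_eq_mul, add_neg_cancel, AddChar.map_zero_eq_one]
  · rw [h3, Subgroup.zpowers_inv]
    exact hgen y
  · -- central characters
    have hc : (⟨HG.z t, ht⟩ : H) ∈ Subgroup.center H := by
      rw [Subgroup.mem_center_iff]
      intro g
      apply Subtype.ext
      change g.1 * HG.z t = HG.z t * g.1
      exact HG.z_comm t g.1
    obtain ⟨ω, hω⟩ := irr_central hρ (le_refl (Subgroup.center H))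
    let zz : Subgroup.center H := ⟨⟨HG.z t, ht⟩, hc⟩
    have h4 : ∑ h : H, FF μ z₀ h * ρ h⁻¹
        = μ t * ((ω zz⁻¹ : ℂˣ) : ℂ) * ∑ h : H, FF μ z₀ h * ρ h⁻¹ := by
      conv_lhs => rw [← Equiv.sum_comp (Equiv.mulRight (zz : H))]
      rw [Finset.mul_sum]
      refine Finset.sum_congr rfl fun g _ => ?_
      have h5 : FF μ z₀ ((Equiv.mulRight (zz : H)) g : H) = μ t * FF μ z₀ g :=
        FF_z μ z₀ g t
      have h6 : ρ ((Equiv.mulRight (zz : H)) g)⁻¹ = ((ω zz⁻¹ : ℂˣ) : ℂ) * ρ g⁻¹ := by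
        rw [← hω]
        congr 1
        change (g * (zz : H))⁻¹ = g⁻¹ * ((zz⁻¹ : Subgroup.center H) : H)
        rw [mul_inv_rev, Subgroup.coe_inv]
        exact (Subgroup.mem_center_iff.mp (Subgroup.inv_mem _ hc) g⁻¹).symm
      rw [h5, h6]
      ring
    have h5 : μ t * ((ω zz⁻¹ : ℂˣ) : ℂ) = 1 :=
      mul_right_cancel₀ hsum (h4.symm.trans (one_mul _).symm)
    have h6 : ((ω zz : ℂˣ) : ℂ) = μ t := by
      rw [map_inv, Units.val_inv_eq_inv_val] at h5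
      exact (eq_of_mul_inv_eq_one h5).symm
    have h7 := hω g zz
    rw [h6] at h7
    exact h7

end Pool.Agent.H11.PP
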