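import Mathlib
import Pool.Agent.H11.PP.HFun

/-!
# The field with `q ^ 2` elements
-/

set_option autoImplicit false
set_option linter.unusedSectionVars false

namespace Pool.Agent.H11.PP

open Pool.Agent.R389 Pool.Agent.W446.AS Pool.Agent.H541R3.ART

/-- the elements of norm one act irreducibly -/
lemma stable_top {K : Type} [Field K] [Finite K] (f : K →+* K) (q : ℕ) (hq : 1 < q)
    (hK : Nat.card K = q ^ 2) (hf : ∀ x, f x = x ^ q) (w : Kˣ) (hw : orderOf w = q ^ 2 - 1)
    (V : AddSubgroup K) (hV : ∀ z : LL f, ∀ v ∈ V, ((z : Kˣ) : K) * v ∈ V) : V = ⊥ ∨ V = ⊤ := by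
  classical
  have : Fintype K := Fintype.ofFinite K
  have hqq : q ^ 2 - 1 = (q - 1) * (q + 1) := by
    obtain ⟨r, rfl⟩ : ∃ r, q = r + 1 := ⟨q - 1, by omega⟩
    have : (r + 1) ^ 2 - 1 = r * (r + 1 + 1) := by
      have h1 : (r + 1) ^ 2 = r * (r + 1 + 1) + 1 := by ring
      omega
    simpa using this
  let u : Kˣ := w ^ (q - 1)
  have hu : orderOf u = q + 1 := by
    rw [orderOf_pow_of_dvd (by omega) (by rw [hw, hqq]; exact dvd_mul_right _ _), hw, hqq]
    exact Nat.mul_div_cancel_left _ (by omega)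
  have hu1 : u ^ (q + 1) = 1 := by
    rw [← hu]
    exact pow_orderOf_eq_one u
  have huL : u ∈ LL f := by
    change f u * u = 1
    rw [hf, ← pow_succ, ← Units.val_pow_eq_pow_val, hu1, Units.val_one]
  let S : Subfield K := Subfield.closure {((u : Kˣ) : K)}
  have huS : ((u : Kˣ) : K) ∈ S := Subfield.subset_closure rfl
  -- the subfield is large
  have hScard : q < Nat.card S := by
    have : Fintype S := Fintype.ofFinite S
    let s : S := ⟨u, huS⟩
    have hs0 : s ≠ 0 := by
      intro h
      have h1 := congrArg Subtype.val h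
      exact u.ne_zero h1
    have h1 := FiniteField.pow_card_sub_one_eq_one s hs0
    have h2 : u ^ (Fintype.card S - 1) = 1 := by
      apply Units.ext
      have h3 := congrArg Subtype.val h1
      rw [Units.val_pow_eq_pow_val]
      exact h3
    have h3 := orderOf_dvd_of_pow_eq_one h2
    rw [hu] at h3
    have h4 : 1 < Fintype.card S := Fintype.one_lt_card
    have h5 := Nat.le_of_dvd (by omega) h3
    rw [Nat.card_eq_fintype_card]
    omega
  have hfin : Module.Finite S K := Module.Finite.of_finite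
  have hcard : Nat.card K = Nat.card S ^ Module.finrank S K := Module.natCard_eq_pow_finrank
  have hrank : Module.finrank S K = 1 := by
    have h1 : 0 < Module.finrank S K := Module.finrank_pos
    by_contra h2
    have h3 : 2 ≤ Module.finrank S K := by omega
    have h4 : Nat.card S ^ 2 ≤ Nat.card S ^ Module.finrank S K :=
      Nat.pow_le_pow_right (by omega) h3
    rw [← hcard, hK] at h4
    have h5 : q ^ 2 < Nat.card S ^ 2 := Nat.pow_lt_pow_left hScard (by norm_num)
    omega
  have hall : ∀ x : K, x ∈ S := by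
    intro x
    obtain ⟨c, hc⟩ := (finrank_eq_one_iff_of_nonzero' (1 : K) one_ne_zero).mp hrank x
    rw [← hc]
    change (c : K) * 1 ∈ S
    rw [mul_one]
    exact c.2
  have hst : ∀ a : K, a ∈ S → ∀ v ∈ V, a * v ∈ V := by
    intro a ha
    induction ha using Subfield.closure_induction with
    | mem x hx =>
      intro v hv
      rw [Set.mem_singleton_iff] at hx
      rw [hx]
      exact hV ⟨u, huL⟩ v hv
    | one =>
      intro v hv
      rwa [one_mul]
    | add x y _ _ hx hy =>
      intro v hv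
      rw [add_mul]
      exact V.add_mem (hx v hv) (hy v hv)
    | neg x _ hx =>
      intro v hv
      rw [neg_mul]
      exact V.neg_mem (hx v hv)
    | inv x _ hx =>
      have hpow : ∀ n : ℕ, ∀ v ∈ V, x ^ n * v ∈ V := by
        intro n
        induction n with
        | zero =>
          intro v hv
          rwa [pow_zero, one_mul]
        | succ n ih =>
          intro v hv
          rw [pow_succ, mul_assoc]
          exact ih _ (hx v hv)
      intro v hv
      by_cases hx0 : x = 0
      · rw [hx0, inv_zero, zero_mul]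
        exact V.zero_mem
      · have h1 : x⁻¹ = x ^ (Fintype.card K - 2) := by
          have h2 := FiniteField.pow_card_sub_one_eq_one x hx0
          have h3 : 1 < Fintype.card K := Fintype.one_lt_card
          have h4 : Fintype.card K - 1 = (Fintype.card K - 2) + 1 := by omega
          rw [h4, pow_succ] at h2
          exact (eq_inv_of_mul_eq_one_left h2).symm
        rw [h1]
        exact hpow _ v hv
    | mul x y _ _ hx hy =>
      intro v hv
      rw [mul_assoc]
      exact hx _ (hy v hv)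
  by_cases hb : V = ⊥
  · exact Or.inl hb
  · right
    obtain ⟨⟨v, hv⟩, hv1⟩ := AddSubgroup.ne_bot_iff_exists_ne_zero.mp hb
    have hv0 : v ≠ 0 := fun h => hv1 (Subtype.ext h)
    rw [eq_top_iff]
    intro x _
    have h1 := hst (x / v) (hall _) v hv
    rwa [div_mul_cancel₀ _ hv0] at h1

/-- **Necessity of the prime powers.** -/
theorem sharp {p n : ℕ} (hp : p.Prime) (hn : 0 < n) :
    ∃ (G : Type) (_ : Group G) (_ : Finite G), Group.IsSolvable G ∧ ∃ χ ∈ Irr G,
      χ 1 = (p ^ n : ℕ) ∧ ∃ F : G → ℂ, (∀ g x : G, F (x * g * x⁻¹) = F g) ∧ pr F χ ≠ 0 ∧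
        ∀ (H : Subgroup G) (ρ : H → ℂ), ρ ∈ Irr H → pr (fun h : H => F h) ρ ≠ 0 →
          ρ 1 = (p ^ n : ℕ) ∨ (ρ 1 = 1 ∧ H ≠ ⊤) := by
  classical
  have : Fact p.Prime := ⟨hp⟩
  let K := GaloisField p (2 * n)
  have hfin : Finite K := inferInstance
  have : Fintype K := Fintype.ofFinite K
  let f : K →+* K := iterateFrobenius K p n
  let q := p ^ n
  have hq1 : 1 < q := Nat.one_lt_pow hn.ne' hp.one_lt
  have hK : Nat.card K = q ^ 2 := by
    rw [GaloisField.card p (2 * n) (by omega), ← pow_mul, mul_comm]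
  have hf : ∀ x, f x = x ^ q := fun x => iterateFrobenius_def p n x
  have hff : ∀ x, f (f x) = x := by
    intro x
    rw [hf, hf, ← pow_mul, ← pow_two, ← hK, Nat.card_eq_fintype_card]
    exact FiniteField.pow_card x
  obtain ⟨w, hwg⟩ := IsCyclic.exists_generator (α := Kˣ)
  have hw : orderOf w = q ^ 2 - 1 := by
    rw [orderOf_eq_card_of_forall_mem_zpowers hwg, ← hK, Nat.card_units]
  have hlt : q - 1 < q ^ 2 - 1 := by
    have h1 : q < q ^ 2 := by
      calc q = q ^ 1 := (pow_one q).symm
        _ < q ^ 2 := Nat.pow_lt_pow_right hq1 (by norm_num)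
    omega
  have hw1 : f w ≠ w := by
    intro h
    rw [hf, ← Units.val_pow_eq_pow_val] at h
    have h1 : w ^ q = w := Units.ext h
    have h2 : w ^ (q - 1) = 1 := by
      have h3 : q = (q - 1) + 1 := by omega
      rw [h3, pow_succ] at h1
      exact mul_right_cancel (h1.trans (one_mul w).symm)
    have h3 := Nat.le_of_dvd (by omega) (orderOf_dvd_of_pow_eq_one h2)
    rw [hw] at h3
    omega
  obtain ⟨μ, hμ⟩ := (AddChar.exists_apply_ne_zero (a := (w : K) - f w)).mpr
    (sub_ne_zero.mpr (Ne.symm hw1))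
  have hcyc : IsCyclic (LL f) := inferInstance
  obtain ⟨z₀, hz₀⟩ := hcyc.exists_generator
  have key : ∀ (H : Subgroup (HG f)) (ρ : H → ℂ), ρ ∈ Irr H →
      pr (fun h : H => FF μ z₀ h) ρ ≠ 0 → ρ 1 = (q : ℕ) ∨ (ρ 1 = 1 ∧ H ≠ ⊤) :=
    fun H ρ hρ h => pair_deg μ z₀ hff (w : K) hμ
      (stable_top f q hq1 hK hf w hw) hK hz₀ H hρ h
  have hex : ∃ χ ∈ Irr (HG f), pr (FF μ z₀) χ ≠ 0 := by
    by_contra hcon
    push Not at hcon
    have h1 := class_zero (f := FF μ z₀) (fun g x => FF_class μ z₀ g x) hcon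
    exact FF_ne μ z₀ (congrFun h1 _)
  obtain ⟨χ, hχ, hpr⟩ := hex
  refine ⟨HG f, inferInstance, inferInstance, inferInstance, χ, hχ, ?_, FF μ z₀,
    fun g x => FF_class μ z₀ g x, hpr, key⟩
  -- the degree of `χ`
  let e : (⊤ : Subgroup (HG f)) ≃* HG f := Subgroup.topEquiv
  have h1 : (fun h : (⊤ : Subgroup (HG f)) => χ h) ∈ Irr (⊤ : Subgroup (HG f)) :=
    infl_irr (π := e.toMonoidHom) e.surjective hχ
  have h2 : pr (fun h : (⊤ : Subgroup (HG f)) => FF μ z₀ h) (fun h => χ h) ≠ 0 := by
    have : Fintype (HG f) := Fintype.ofFinite _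
    have : Fintype (⊤ : Subgroup (HG f)) := Fintype.ofFinite _
    rw [pr_eq] at hpr ⊢
    rw [Subgroup.card_top]
    have h3 := Equiv.sum_comp e.toEquiv (fun g => FF μ z₀ g * χ g⁻¹)
    rw [← h3] at hpr
    exact hpr
  rcases key ⊤ _ h1 h2 with h3 | h3
  · exact h3
  · exact absurd rfl h3.2

end Pool.Agent.H11.PP
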