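import Mathlib
import Pool.Agent.H11.PP.Main
import Pool.Graph.R_pool_sql_team_seeded_c8625f6e.K4H74.ST.Chr
import Pool.Graph.R_pool_sql_team_seeded_c8625f6e.K4H74.ST.Fld
import Pool.Graph.R_pool_sql_team_seeded_c8625f6e.K4H74.SC.Inst

/-!
# Inductive invariants of Artin characters and basic characters
-/

set_option autoImplicit false
set_option linter.unusedSectionVars false

namespace Pool.Agent.H11.PP

open Pool.Agent.R389 Pool.Agent.W446.AS Pool.Agent.H541R3.ART Pool.Agent.K4H74 NumberField

section transport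

variable {Q Q' : Type} [Group Q] [Group Q'] [Finite Q] [Finite Q']

lemma Elem.of_equiv (e : Q ≃* Q') (h : Elem Q) : Elem Q' :=
  ⟨Hyper.of_surj e.toMonoidHom e.surjective h.1, by
    have := h.2
    exact Group.nilpotent_of_mulEquiv e⟩

lemma Basic.of_equiv (e : Q' ≃* Q) {d : ℕ} {ψ : Q → ℂ} (h : Basic Q d ψ) :
    Basic Q' d (fun g => ψ (e g)) := by
  obtain ⟨⟨ρ, h1, h2, h3⟩, hd, h4, h5, h6⟩ := h
  refine ⟨⟨ρ.comp e.toMonoidHom, ?_, ?_, ?_⟩, hd, ?_, ?_, ?_⟩
  · rw [← irred_iff] at h1 ⊢
    refine ⟨h1.1, fun W hW => h1.2 W fun g v hv => ?_⟩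
    have := hW (e.symm g) v hv
    change ρ (e (e.symm g)) v ∈ W at this
    rwa [e.apply_symm_apply] at this
  · intro a b hab
    exact e.injective (h2 hab)
  · funext g
    rw [h3]
    rfl
  · intro N hN hab
    let M : Subgroup Q := N.comap e.symm.toMonoidHom
    have hM : M.Normal := hN.comap _
    have hE := h4 M (by
      obtain ⟨x, hx, y, hy, hxy⟩ := hab
      refine ⟨e x, ?_, e y, ?_, fun h => hxy ?_⟩
      · change e.symm (e x) ∈ N
        rwa [e.symm_apply_apply]
      · change e.symm (e y) ∈ N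
        rwa [e.symm_apply_apply]
      · rw [← map_mul, ← map_mul] at h
        exact e.injective h)
    refine hE.of_equiv (QuotientGroup.congr M N e.symm ?_)
    change (N.comap e.symm.toMonoidHom).map e.symm.toMonoidHom = N
    exact Subgroup.map_comap_eq_self_of_surjective e.symm.surjective N
  · intro M hM φ hφ hind
    let π : Q →* Q' := e.symm.toMonoidHom
    have hπ : Function.Surjective π := e.symm.surjective
    have h7 := ind_comap hπ M φ
    let π' : M.comap π →* M :=
      { toFun := fun h => ⟨π h, h.2⟩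
        map_one' := by apply Subtype.ext; simp
        map_mul' := by intro a b; apply Subtype.ext; simp }
    have hπ' : Function.Surjective π' := by
      rintro ⟨y, hy⟩
      obtain ⟨g, rfl⟩ := hπ y
      exact ⟨⟨g, hy⟩, rfl⟩
    have h8 := h5 (M.comap π) (by
      intro h
      apply hM
      rw [eq_top_iff]
      intro y _
      obtain ⟨g, rfl⟩ := hπ y
      have : g ∈ M.comap π := by rw [h]; exact Subgroup.mem_top g
      exact this) (fun g => φ (π' g)) (infl_irr hπ' hφ) (by
      have h9 : (fun h : M.comap π => φ ⟨π h, h.2⟩) = fun g => φ (π' g) := rfl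
      rw [← h9, ← h7, ← hind]
      funext g
      change ψ g = ψ (e (e.symm g))
      rw [e.apply_symm_apply])
    rw [map_one] at h8
    exact h8
  · intro hs
    apply h6
    exact Group.isSolvable_of_surjective (f := e.toMonoidHom) e.surjective

end transport

section fields

variable {K N : Type} [Field K] [NumberField K] [Field N] [NumberField N] [Algebra K N]
  [IsGalois K N]

/-- a surjective homomorphism from a Galois group is the restriction to a subfield -/
lemma exists_fixed {Q : Type} [Group Q] (π : (N ≃ₐ[K] N) →* Q) (hπ : Function.Surjective π) :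
    ∃ (L : IntermediateField K N) (_ : IsGalois K L) (e : (L ≃ₐ[K] L) ≃* Q),
      ∀ g : N ≃ₐ[K] N, e (AlgEquiv.restrictNormalHom L g) = π g := by
  classical
  have hfin : FiniteDimensional K N := Module.Finite.of_restrictScalars_finite ℚ K N
  let L : IntermediateField K N := IntermediateField.fixedField π.ker
  have hL : IsGalois K L := IsGalois.of_fixedField_normal_subgroup π.ker
  let r : (N ≃ₐ[K] N) →* (L ≃ₐ[K] L) := AlgEquiv.restrictNormalHom L
  have hr : Function.Surjective r := AlgEquiv.restrictNormalHom_surjective N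
  have hker : ∀ g : N ≃ₐ[K] N, r g = 1 ↔ π g = 1 := by
    intro g
    constructor
    · intro h
      have h1 : g ∈ L.fixingSubgroup := by
        rw [IntermediateField.mem_fixingSubgroup_iff]
        intro x hx
        have h2 := ST.res_apply (L := L) g ⟨x, hx⟩
        change algebraMap L N (r g ⟨x, hx⟩) = _ at h2
        rw [h] at h2
        exact h2.symm
      rw [IntermediateField.fixingSubgroup_fixedField] at h1
      exact h1
    · intro h
      ext x
      have h2 := ST.res_apply (L := L) g x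
      change algebraMap L N (r g x) = _ at h2
      change ((r g x : L) : N) = (x : N)
      exact h2.trans (x.2 ⟨g, h⟩)
  have hk : r.ker = π.ker := by
    ext g
    rw [MonoidHom.mem_ker, MonoidHom.mem_ker, hker]
  let e₁ := (QuotientGroup.quotientKerEquivOfSurjective r hr).symm
  let e₂ := QuotientGroup.quotientMulEquivOfEq hk
  let e₃ := QuotientGroup.quotientKerEquivOfSurjective π hπ
  refine ⟨L, hL, (e₁.trans e₂).trans e₃, fun g => ?_⟩
  have h1 : e₁ (r g) = (QuotientGroup.mk g : _ ⧸ r.ker) := by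
    rw [MulEquiv.symm_apply_eq]
    rfl
  change e₃ (e₂ (e₁ (r g))) = π g
  rw [h1]
  rfl

/-- irreducible characters of degree one are linear characters -/
lemma lin_of_deg {G : Type} [Group G] [Finite G] {χ : G → ℂ} (hχ : χ ∈ Irr G) (h1 : χ 1 = 1) :
    ∃ l : G →* ℂˣ, χ = fun g => ((l g : ℂˣ) : ℂ) := by
  classical
  obtain ⟨n, σ, hσ, rfl⟩ := exists_rep hχ
  have hn1 : n = 1 := by
    have h2 : σ.character 1 = (n : ℂ) := by
      have := σ.char_one
      simp [this]
    rw [h2] at h1
    exact_mod_cast h1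
  subst hn1
  have hfr : Module.finrank ℂ (Fin 1 → ℂ) = 1 := by simp
  obtain ⟨w, hw0⟩ := exists_ne (0 : Fin 1 → ℂ)
  have hsc : ∀ g : G, ∃ c : ℂ, σ g = c • (1 : (Fin 1 → ℂ) →ₗ[ℂ] (Fin 1 → ℂ)) := by
    intro g
    obtain ⟨c, hc⟩ := (finrank_eq_one_iff_of_nonzero' w hw0).mp hfr (σ g w)
    refine ⟨c, LinearMap.ext fun v => ?_⟩
    obtain ⟨d, rfl⟩ := (finrank_eq_one_iff_of_nonzero' w hw0).mp hfr v
    rw [map_smul, ← hc]
    change d • c • w = c • d • w
    rw [smul_comm]
  choose c hc using hsc
  have hch : ∀ g, σ.character g = c g := by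
    intro g
    change LinearMap.trace ℂ _ (σ g) = _
    rw [hc, map_smul, LinearMap.trace_one, hfr]
    simp
  have hmul : ∀ a b, c (a * b) = c a * c b := by
    intro a b
    rw [← hch, ← hch, ← hch]
    change LinearMap.trace ℂ _ (σ (a * b)) = LinearMap.trace ℂ _ (σ a) * LinearMap.trace ℂ _ (σ b)
    rw [map_mul, hc a, hc b, smul_mul_smul_comm, mul_one, map_smul, map_smul, map_smul,
      LinearMap.trace_one, hfr]
    simp
  let f : G →* ℂ :=
    { toFun := c
      map_one' := by rw [← hch]; exact h1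
      map_mul' := hmul }
  exact ⟨f.toHomUnits, funext fun g => hch g⟩

variable {M : Type} [CommGroup M] (A : ST.ArtinInvariant M) (P : Subgroup M)

/-- characters over the base field -/
lemma base_mem (ha : ∀ (L : IntermediateField K N) [IsGalois K L] (l : (L ≃ₐ[K] L) →* ℂˣ),
      Function.Injective l → A.val K L (ST.lc l) ∈ P)
    (hb : ∀ (F : IntermediateField K N) (L : IntermediateField F N) [IsGalois F L] (d : ℕ)
      (χ : (L ≃ₐ[F] L) → ℂ), Basic (L ≃ₐ[F] L) d χ → A.val F L χ ∈ P)
    {f : (N ≃ₐ[K] N) → ℂ} (hf : ST.IsChar f) : A.val K N f ∈ P := by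
  classical
  have hfin : FiniteDimensional K N := Module.Finite.of_restrictScalars_finite ℚ K N
  rw [← ST.mem_TT_char A hf]
  -- induced basic characters
  have h1 : TT (N ≃ₐ[K] N) ≤ ST.TT A (K := K) (L := N) P := by
    rw [TT, AddSubgroup.closure_le]
    rintro u ⟨H, ψ, hψ, rfl⟩
    obtain ⟨Q, i1, i2, π, d, φ, hπ, hφ, rfl⟩ := hψ
    have hchψ : ST.IsChar (fun g : H => φ (π g)) := by
      obtain ⟨⟨ρ, -, -, rfl⟩, -⟩ := hφ
      exact ⟨_, inferInstance, inferInstance, inferInstance, ρ.comp π, rfl⟩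
    have hchu : ST.IsChar (ind H fun g => φ (π g)) := SC.isChar_ind H hchψ
    rw [SetLike.mem_coe, ST.mem_TT_char A hchu, ST.ind_fixed]
    let F := IntermediateField.fixedField H
    let e : H ≃* (N ≃ₐ[F] N) := IntermediateField.subgroupEquivAlgEquiv H
    have hchF : ST.IsChar (fun g : N ≃ₐ[F] N => φ (π (e.symm g))) := by
      obtain ⟨⟨ρ, -, -, rfl⟩, -⟩ := hφ
      exact ⟨_, inferInstance, inferInstance, inferInstance,
        (ρ.comp π).comp e.symm.toMonoidHom, rfl⟩
    change A.val K N (ST.indChar K F N fun g => φ (π (e.symm g))) ∈ P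
    rw [A.val_ind K F N _ hchF]
    obtain ⟨L, hL, j, hj⟩ := exists_fixed (K := F) (N := N) (π.comp e.symm.toMonoidHom)
      (hπ.comp e.symm.surjective)
    have h2 : (fun g : N ≃ₐ[F] N => φ (π (e.symm g)))
        = fun g => (fun y : L ≃ₐ[F] L => φ (j y)) (AlgEquiv.restrictNormalHom L g) := by
      funext g
      change φ (π (e.symm g)) = φ (j (AlgEquiv.restrictNormalHom L g))
      rw [hj]
      rfl
    have hfinL : FiniteDimensional F L := Module.Finite.of_restrictScalars_finite ℚ F L
    have hB : Basic (L ≃ₐ[F] L) d (fun y => φ (j y)) := hφ.of_equiv j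
    have hchL : ST.IsChar (fun y : L ≃ₐ[F] L => φ (j y)) := by
      obtain ⟨⟨ρ, -, -, hρ⟩, -⟩ := hB
      exact ⟨_, inferInstance, inferInstance, inferInstance, ρ, hρ⟩
    rw [h2, A.val_infl F L N _ hchL]
    exact hb F L d _ hB
  -- irreducible characters
  have h2 : ∀ χ ∈ Irr (N ≃ₐ[K] N), χ ∈ ST.TT A (K := K) (L := N) P := by
    intro χ hχ
    by_cases h3 : χ 1 = 1
    · obtain ⟨l, hl⟩ := lin_of_deg hχ h3
      obtain ⟨L, hL, j, hj⟩ := exists_fixed (K := K) (N := N) l.rangeRestrict
        l.rangeRestrict_surjective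
      let l' : (L ≃ₐ[K] L) →* ℂˣ := l.range.subtype.comp j.toMonoidHom
      have hl' : Function.Injective l' := l.range.subtype_injective.comp j.injective
      have h4 : χ = fun g => ST.lc l' (AlgEquiv.restrictNormalHom L g) := by
        funext g
        rw [hl]
        change ((l g : ℂˣ) : ℂ) = (((j (AlgEquiv.restrictNormalHom L g) : l.range) : ℂˣ) : ℂ)
        rw [hj]
        rfl
      have h5 : ST.IsChar χ := by
        rw [hl]
        exact ST.IsChar.lc l
      rw [ST.mem_TT_char A h5, h4, A.val_infl K L N _ (ST.IsChar.lc l')]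
      exact ha L l' hl'
    · exact h1 (main_theorem hχ h3)
  have h3 : AddSubgroup.closure (Irr (N ≃ₐ[K] N)) ≤ ST.TT A (K := K) (L := N) P := by
    rw [AddSubgroup.closure_le]
    exact h2
  exact h3 hf.virt

/-- **Inductive invariants.** -/
theorem all_mem (ha : ∀ (L : IntermediateField K N) [IsGalois K L] (l : (L ≃ₐ[K] L) →* ℂˣ),
      Function.Injective l → A.val K L (ST.lc l) ∈ P)
    (hb : ∀ (F : IntermediateField K N) (L : IntermediateField F N) [IsGalois F L] (d : ℕ)
      (χ : (L ≃ₐ[F] L) → ℂ), Basic (L ≃ₐ[F] L) d χ → A.val F L χ ∈ P)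
    (F : IntermediateField K N) (L : IntermediateField F N) [IsGalois F L]
    {χ : (L ≃ₐ[F] L) → ℂ} (hχ : ST.IsChar χ) : A.val F L χ ∈ P := by
  rw [← A.val_infl F L N χ hχ]
  have h1 : ST.IsChar (fun g : N ≃ₐ[F] N => χ (AlgEquiv.restrictNormalHom L g)) := by
    obtain ⟨V, _, _, _, ρ, rfl⟩ := hχ
    exact ⟨V, inferInstance, inferInstance, inferInstance,
      ρ.comp (AlgEquiv.restrictNormalHom L), rfl⟩
  rw [← A.val_ind K F N _ h1]
  exact base_mem A P ha hb (SC.isChar_indChar h1)

end fields

end Pool.Agent.H11.PP
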