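import Mathlib
import Pool.Graph.R_seed8.H391R2.T4.Fin
import Pool.Graph.R_pool_sql_team_seeded_c8625f6e.K4H74.SC.Core

/-!
# Every finite group is the Galois group of an extension of number fields
-/

set_option autoImplicit false
set_option linter.unusedSectionVars false

namespace Pool.Agent.H11.PP

open NumberField Pool.Agent.H391R2

theorem exists_ext (Γ : Type) [Group Γ] [Finite Γ] :
    ∃ E : Pool.Agent.K4H74.SK.Ext, Nonempty (Pool.Agent.K4H74.SK.G E ≃* Γ) := by
  classical
  obtain ⟨n₀, hn₀⟩ := (Pool.Agent.H391R2.T4.rat_fin Γ).1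
  obtain ⟨-, ⟨⟨L, i1, i2, hL, e⟩⟩, -⟩ := hn₀ (n₀ + 1) (by omega)
  have hfinW : Finite (Wr Γ (n₀ + 1)) := Finite.of_equiv _ (SemidirectProduct.equivProd).symm
  have hfin : Finite (L ≃ₐ[ℚ] L) := Finite.of_equiv _ e.toEquiv
  have hfd : FiniteDimensional ℚ L := IsGalois.finiteDimensional_of_finite ℚ L
  have hchar : CharZero L := charZero_of_injective_algebraMap (algebraMap ℚ L).injective
  have hi : i2 = DivisionRing.toRatAlgebra := Subsingleton.elim _ _
  subst hi
  have hNF : NumberField L := { to_charZero := hchar, to_finiteDimensional := hfd }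
  -- the group as a subgroup
  let j : Γ →* (L ≃ₐ[ℚ] L) := (e.toMonoidHom.comp SemidirectProduct.inl).comp
    (MonoidHom.mulSingle (fun _ : Fin (n₀ + 1) => Γ) 0)
  have hj : Function.Injective j := by
    intro a b hab
    have h1 := e.injective hab
    have h2 := SemidirectProduct.inl_injective h1
    exact Pi.mulSingle_injective (0 : Fin (n₀ + 1)) h2
  let F := IntermediateField.fixedField j.range
  have e₁ : j.range ≃* (L ≃ₐ[F] L) := IntermediateField.subgroupEquivAlgEquiv j.range
  have hgal : IsGalois F L := IsGalois.tower_top_of_isGalois ℚ F L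
  have e₂ : Γ ≃* j.range := MonoidHom.ofInjective hj
  exact ⟨⟨F, L⟩, ⟨(e₂.trans e₁).symm⟩⟩

end Pool.Agent.H11.PP
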