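import Mathlib
import Pool.Agent.H11.PP.HFld
import Pool.Agent.H11.PP.Num
import Pool.Agent.H11.PP.Real

/-!
# Which degrees suffice
-/

set_option autoImplicit false
set_option linter.unusedSectionVars false

namespace Pool.Agent.H11.PP

open Pool.Agent.R389 Pool.Agent.W446.AS Pool.Agent.H541R3.ART

/-- the linear characters of `Γ`, and the characters which are induced from the irreducible
characters of the subgroups of `Γ` whose degree is in `D` -/
def Fam (D : Set ℕ) (Γ : Type) [Group Γ] : Set (Γ → ℂ) :=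
  {u | ∃ l : Γ →* ℂˣ, u = fun g => ((l g : ℂˣ) : ℂ)} ∪
  {u | ∃ (H : Subgroup Γ) (ρ : H → ℂ), ρ ∈ Irr H ∧ (∃ d ∈ D, ρ 1 = (d : ℂ)) ∧ u = ind H ρ}

section

variable {Γ Γ' : Type} [Group Γ] [Finite Γ] [Group Γ'] [Finite Γ']

lemma pr_equiv (e : Γ' ≃* Γ) (a b : Γ → ℂ) : pr (fun g => a (e g)) (fun g => b (e g)) = pr a b := by
  classical
  have : Fintype Γ := Fintype.ofFinite Γ
  have : Fintype Γ' := Fintype.ofFinite Γ'
  rw [pr_eq, pr_eq, Nat.card_congr e.toEquiv]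
  congr 1
  rw [← Equiv.sum_comp e.toEquiv]
  refine Finset.sum_congr rfl fun g _ => ?_
  change a (e g) * b (e g⁻¹) = a (e g) * b (e g)⁻¹
  rw [map_inv]

/-- the property of `sharp` -/
def Sharp (Γ : Type) [Group Γ] (q : ℕ) : Prop :=
  ∃ χ ∈ Irr Γ, χ 1 = (q : ℂ) ∧ ∃ F : Γ → ℂ, (∀ g x : Γ, F (x * g * x⁻¹) = F g) ∧ pr F χ ≠ 0 ∧
    ∀ (H : Subgroup Γ) (ρ : H → ℂ), ρ ∈ Irr H → pr (fun h : H => F h) ρ ≠ 0 →
      ρ 1 = (q : ℂ) ∨ (ρ 1 = 1 ∧ H ≠ ⊤)

lemma Sharp.of_equiv {q : ℕ} (e : Γ' ≃* Γ) (h : Sharp Γ q) : Sharp Γ' q := by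
  obtain ⟨χ, hχ, h1, F, hF, h2, h3⟩ := h
  refine ⟨fun g => χ (e g), infl_irr (π := e.toMonoidHom) e.surjective hχ, ?_, fun g => F (e g),
    fun g x => ?_, ?_, fun H ρ hρ hpr => ?_⟩
  · change χ (e 1) = _
    rw [map_one, h1]
  · change F (e (x * g * x⁻¹)) = F (e g)
    rw [map_mul, map_mul, map_inv, hF]
  · rw [pr_equiv e F χ]
    exact h2
  · let j : H.map e.toMonoidHom ≃* H := (e.subgroupMap H).symm
    have hj : ∀ y : H.map e.toMonoidHom, e (j y : Γ') = y := by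
      intro y
      have h4 := (e.subgroupMap H).apply_symm_apply y
      exact congrArg Subtype.val h4
    have h4 : (fun h : H.map e.toMonoidHom => F h)
        = fun y => (fun h : H => F (e h)) (j y) := by
      funext y
      change F y = F (e (j y : Γ'))
      rw [hj]
    have h5 := h3 (H.map e.toMonoidHom) (fun y => ρ (j y))
      (infl_irr (π := j.toMonoidHom) j.surjective hρ) (by
        rw [h4, pr_equiv j (fun h : H => F (e h)) ρ]
        exact hpr)
    rw [map_one] at h5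
    rcases h5 with h5 | ⟨h5, h6⟩
    · exact Or.inl h5
    · refine Or.inr ⟨h5, fun h7 => h6 ?_⟩
      rw [h7, ← MonoidHom.range_eq_map, MonoidHom.range_eq_top]
      exact e.surjective

/-- the degrees which are not in `D` cannot be avoided -/
lemma Sharp.not_mem {q : ℕ} (h : Sharp Γ q) {D : Set ℕ} (h1 : 1 ∉ D) (hq : q ∉ D) (hq1 : q ≠ 1) :
    ∃ χ ∈ Irr Γ, χ ∉ Submodule.span ℂ (Fam D Γ) := by
  classical
  have : Fintype Γ := Fintype.ofFinite Γ
  obtain ⟨χ, hχ, -, F, hF, h2, h3⟩ := h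
  refine ⟨χ, hχ, fun hmem => h2 ?_⟩
  let Λ : (Γ → ℂ) →ₗ[ℂ] ℂ :=
    { toFun := fun u => pr u F
      map_add' := fun u v => pr_add u v F
      map_smul' := fun c u => by
        have h9 : ∑ g : Γ, (c • u) g * F g⁻¹ = c * ∑ g : Γ, u g * F g⁻¹ := by
          rw [Finset.mul_sum]
          exact Finset.sum_congr rfl fun g _ => mul_assoc c (u g) (F g⁻¹)
        rw [pr_eq, pr_eq, RingHom.id_apply, smul_eq_mul, h9]
        ring }
  have hΛ : Submodule.span ℂ (Fam D Γ) ≤ LinearMap.ker Λ := by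
    rw [Submodule.span_le]
    -- induced characters
    have h4 : ∀ (H : Subgroup Γ) (ρ : H → ℂ), ρ ∈ Irr H → (ρ 1 ≠ 1 ∨ H = ⊤) → ρ 1 ≠ (q : ℂ) →
        Λ (ind H ρ) = 0 := by
      intro H ρ hρ h5 h6
      change pr (ind H ρ) F = 0
      rw [frob H ρ hF, pr_comm]
      by_contra h7
      rcases h3 H ρ hρ h7 with h8 | ⟨h8, h9⟩
      · exact h6 h8
      · rcases h5 with h5 | h5
        · exact h5 h8
        · exact h9 h5
    rintro u (⟨l, rfl⟩ | ⟨H, ρ, hρ, ⟨d, hd, hρd⟩, rfl⟩)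
    · rw [SetLike.mem_coe, LinearMap.mem_ker]
      have h5 : (fun g => ((l g : ℂˣ) : ℂ))
          = ind (⊤ : Subgroup Γ) (fun x => ((l (x : Γ) : ℂˣ) : ℂ)) := by
        funext g
        rw [ind_eq]
        have h6 : ∀ x : Γ, ext (⊤ : Subgroup Γ) (fun h => ((l (h : Γ) : ℂˣ) : ℂ)) (x⁻¹ * g * x)
            = ((l g : ℂˣ) : ℂ) := by
          intro x
          rw [ext_mem _ _ (Subgroup.mem_top _)]
          change ((l (x⁻¹ * g * x) : ℂˣ) : ℂ) = _
          rw [map_mul, map_mul, map_inv, mul_comm (l x)⁻¹, inv_mul_cancel_right]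
        rw [Finset.sum_congr rfl (fun x _ => h6 x), Finset.sum_const, Finset.card_univ,
          nsmul_eq_mul, ← mul_assoc, Subgroup.card_top, Nat.card_eq_fintype_card,
          inv_mul_cancel₀, one_mul]
        exact_mod_cast Fintype.card_ne_zero
      rw [h5]
      refine h4 ⊤ _ (lin_irr (l.comp (⊤ : Subgroup Γ).subtype)) (Or.inr rfl) ?_
      rw [OneMemClass.coe_one, map_one, Units.val_one]
      intro h7
      apply hq1
      exact_mod_cast h7.symm
    · rw [SetLike.mem_coe, LinearMap.mem_ker]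
      refine h4 H ρ hρ (Or.inl ?_) ?_
      · rw [hρd]
        intro h5
        apply h1
        have h6 : d = 1 := by exact_mod_cast h5
        rwa [h6] at hd
      · rw [hρd]
        intro h5
        apply hq
        have h6 : d = q := by exact_mod_cast h5
        rwa [h6] at hd
  have h4 := hΛ hmem
  rw [LinearMap.mem_ker] at h4
  have h5 : pr χ F = 0 := h4
  rw [pr_comm]
  exact h5

/-- the degrees in `D` suffice -/
lemma fam_all {D : Set ℕ} (hD : 1 ∈ D ∨ ∀ p k : ℕ, p.Prime → 0 < k → p ^ k ∈ D)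
    (hs : Group.IsSolvable Γ) {χ : Γ → ℂ} (hχ : χ ∈ Irr Γ) :
    χ ∈ AddSubgroup.closure (Fam D Γ) := by
  rcases hD with h1 | hD
  · have h2 : MonG Γ ≤ AddSubgroup.closure (Fam D Γ) := by
      rw [MonG, AddSubgroup.closure_le]
      rintro u ⟨U, ψ, -, rfl⟩
      refine AddSubgroup.subset_closure (Or.inr ⟨U, _, lin_irr ψ, ⟨1, h1, ?_⟩, rfl⟩)
      simp
    exact h2 (virt_mem_mon (AddSubgroup.subset_closure hχ))
  · by_cases h1 : χ 1 = 1
    · obtain ⟨l, hl⟩ := lin_of_deg hχ h1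
      exact AddSubgroup.subset_closure (Or.inl ⟨l, hl⟩)
    · have h2 : TT Γ ≤ AddSubgroup.closure (Fam D Γ) := by
        rw [TT, AddSubgroup.closure_le]
        rintro u ⟨H, ψ, hψ, rfl⟩
        obtain ⟨Q, i1, i2, π, d, φ, hπ, hφ, rfl⟩ := hψ
        obtain ⟨⟨ρ, hρ, -, hρφ⟩, hd, -, -, h6⟩ := hφ
        have hQ : Group.IsSolvable Q := Group.isSolvable_of_surjective (f := π) hπ
        obtain ⟨p, k, hp, hk⟩ := h6 hQ
        have hφI : φ ∈ Irr Q := ⟨d, ρ, hρ, hρφ⟩
        refine AddSubgroup.subset_closure (Or.inr ⟨H, _, infl_irr hπ hφI, ⟨d, ?_, ?_⟩, rfl⟩)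
        · rw [hk]
          refine hD p k hp (Nat.pos_of_ne_zero ?_)
          rintro rfl
          rw [pow_zero] at hk
          omega
        · rw [map_one, hρφ, ρ.char_one]
          simp
      exact h2 (main_theorem hχ h1)

end

open Pool.Agent.K4H74.SK in
/-- **Which degrees suffice.** -/
theorem degrees (D : Set ℕ) : List.TFAE [
    ∀ (Γ : Type) [Group Γ] [Finite Γ], Group.IsSolvable Γ →
      Irr Γ ⊆ AddSubgroup.closure (Fam D Γ),
    ∀ E : Ext, Group.IsSolvable (G E) → Irr (G E) ⊆ AddSubgroup.closure (Fam D (G E)),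
    ∀ E : Ext, Group.IsSolvable (G E) → Irr (G E) ⊆ Submodule.span ℂ (Fam D (G E)),
    1 ∈ D ∨ ∀ p k : ℕ, p.Prime → 0 < k → p ^ k ∈ D] := by
  tfae_have 1 → 2 := by
    intro h E hs
    have : Finite (G E) := inferInstanceAs (Finite (E.L ≃ₐ[E.K] E.L))
    exact h (G E) hs
  tfae_have 2 → 3 := by
    intro h E hs χ hχ
    have h1 := h E hs hχ
    have h2 : AddSubgroup.closure (Fam D (G E))
        ≤ (Submodule.span ℂ (Fam D (G E))).toAddSubgroup := by
      rw [AddSubgroup.closure_le]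
      exact Submodule.subset_span
    exact h2 h1
  tfae_have 3 → 4 := by
    intro h
    by_contra hcon
    push Not at hcon
    obtain ⟨h1, p, k, hp, hk, hD⟩ := hcon
    obtain ⟨Γ, i1, i2, hs, χ, hχ, hχ1, hF⟩ := sharp hp hk
    obtain ⟨E, ⟨e⟩⟩ := exists_ext Γ
    have : Finite (G E) := inferInstanceAs (Finite (E.L ≃ₐ[E.K] E.L))
    have h2 : Sharp (G E) (p ^ k) := Sharp.of_equiv e ⟨χ, hχ, hχ1, hF⟩
    obtain ⟨θ, hθ, h3⟩ := h2.not_mem h1 hD (Nat.one_lt_pow hk.ne' hp.one_lt).ne'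
    refine h3 (h E ?_ hθ)
    exact Group.isSolvable_of_surjective (f := e.symm.toMonoidHom) e.symm.surjective
  tfae_have 4 → 1 := by
    intro hD Γ _ _ hs χ hχ
    exact fam_all hD hs hχ
  tfae_finish

end Pool.Agent.H11.PP
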