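import Mathlib
import Pool.Agent.H11.PP.Num
import Pool.Graph.R_pool_sql_team_seeded_c8625f6e.K4H74.SC.Lead
import Pool.Graph.R_pool_sql_team_seeded_c8625f6e.K4H74.SC.Wrap
import Pool.Graph.R_pool_sql_team_seeded_c8625f6e.K4H77.SL.Def

/-!
# The intermediate extensions of a Galois extension
-/

set_option autoImplicit false

namespace Pool.Agent.H11.PP

open NumberField Pool.Agent.K4H74 Pool.Agent.K4H74.SK

/-- the extension `L / K`, for a field `L` between `K` and `N`; here `E` is `N / K` -/
def Low (E : Ext) (L : IntermediateField E.K E.L) [IsGalois E.K L] : Ext := ⟨E.K, L⟩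

/-- the extension `L / F`, for fields `F ⊆ L` between `K` and `N`; here `E` is `N / K` -/
def Mid (E : Ext) (F : IntermediateField E.K E.L) (L : IntermediateField F E.L) [IsGalois F L] :
    Ext := ⟨F, L⟩

/-- `H` contains the defect of `χ` -/
def In (c : Pair → ℂ) (σ : ℂ ≃+* ℂ) (H : Subgroup ℂˣ) {E : Ext} (χ : G E → ℂ) : Prop :=
  ∀ d : ℂˣ, IsDefect c σ χ d → d ∈ H

end Pool.Agent.H11.PP
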