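import Mathlib
import Pool.Agent.H11.PP.Degs
import Pool.Agent.H11.PP.Stk

/-!
# Inductive invariants and the degrees which suffice
-/

set_option autoImplicit false
set_option linter.unusedSectionVars false

namespace Pool.Agent.H11.PP

open Pool.Agent.R389 Pool.Agent.W446.AS Pool.Agent.H541R3.ART Pool.Agent.K4H74 NumberField

/-- the extension `N / F`, for a field `F` between `K` and `N`; here `E` is `N / K` -/
def Top (E : SK.Ext) (F : IntermediateField E.K E.L) : SK.Ext := ⟨F, E.L⟩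

section fields

variable {K N : Type} [Field K] [NumberField K] [Field N] [NumberField N] [Algebra K N]
  [IsGalois K N]

variable {M : Type} [CommGroup M] (A : ST.ArtinInvariant M) (P : Subgroup M)

lemma fam_base {D : Set ℕ} (hD : 1 ∈ D ∨ ∀ p k : ℕ, p.Prime → 0 < k → p ^ k ∈ D)
    (hs : Group.IsSolvable (N ≃ₐ[K] N))
    (ha : ∀ l : (N ≃ₐ[K] N) →* ℂˣ, A.val K N (ST.lc l) ∈ P)
    (hb : ∀ (F : IntermediateField K N) (χ : (N ≃ₐ[F] N) → ℂ), χ ∈ Irr (N ≃ₐ[F] N) →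
      (∃ d ∈ D, χ 1 = (d : ℂ)) → A.val F N χ ∈ P)
    {f : (N ≃ₐ[K] N) → ℂ} (hf : ST.IsChar f) : A.val K N f ∈ P := by
  classical
  have hfin : FiniteDimensional K N := Module.Finite.of_restrictScalars_finite ℚ K N
  rw [← ST.mem_TT_char A hf]
  have h1 : AddSubgroup.closure (Fam D (N ≃ₐ[K] N)) ≤ ST.TT A (K := K) (L := N) P := by
    rw [AddSubgroup.closure_le]
    rintro u (⟨l, rfl⟩ | ⟨H, ρ, hρ, hd, rfl⟩)
    · rw [SetLike.mem_coe]
      have h2 : ST.IsChar (fun g : N ≃ₐ[K] N => ((l g : ℂˣ) : ℂ)) := ST.IsChar.lc l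
      rw [ST.mem_TT_char A h2]
      exact ha l
    · have hchρ : ST.IsChar ρ := by
        obtain ⟨n, σ, -, rfl⟩ := hρ
        exact ⟨_, inferInstance, inferInstance, inferInstance, σ, rfl⟩
      have hchu : ST.IsChar (ind H ρ) := SC.isChar_ind H hchρ
      rw [SetLike.mem_coe, ST.mem_TT_char A hchu, ST.ind_fixed]
      let F := IntermediateField.fixedField H
      let e : H ≃* (N ≃ₐ[F] N) := IntermediateField.subgroupEquivAlgEquiv H
      have hI : (fun g : N ≃ₐ[F] N => ρ (e.symm g)) ∈ Irr (N ≃ₐ[F] N) :=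
        infl_irr (π := e.symm.toMonoidHom) e.symm.surjective hρ
      have hchF : ST.IsChar (fun g : N ≃ₐ[F] N => ρ (e.symm g)) := by
        obtain ⟨n, σ, -, hσ⟩ := hI
        exact ⟨_, inferInstance, inferInstance, inferInstance, σ, hσ⟩
      change A.val K N (ST.indChar K F N fun g => ρ (e.symm g)) ∈ P
      rw [A.val_ind K F N _ hchF]
      refine hb F _ hI ?_
      rw [map_one]
      exact hd
  have h3 : AddSubgroup.closure (Irr (N ≃ₐ[K] N)) ≤ ST.TT A (K := K) (L := N) P := by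
    rw [AddSubgroup.closure_le]
    exact fun χ hχ => h1 (fam_all hD hs hχ)
  exact h3 hf.virt

theorem fam_mem {D : Set ℕ} (hD : 1 ∈ D ∨ ∀ p k : ℕ, p.Prime → 0 < k → p ^ k ∈ D)
    (hs : Group.IsSolvable (N ≃ₐ[K] N))
    (ha : ∀ l : (N ≃ₐ[K] N) →* ℂˣ, A.val K N (ST.lc l) ∈ P)
    (hb : ∀ (F : IntermediateField K N) (χ : (N ≃ₐ[F] N) → ℂ), χ ∈ Irr (N ≃ₐ[F] N) →
      (∃ d ∈ D, χ 1 = (d : ℂ)) → A.val F N χ ∈ P)
    (F : IntermediateField K N) {χ : (N ≃ₐ[F] N) → ℂ} (hχ : ST.IsChar χ) : A.val F N χ ∈ P := by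
  rw [← A.val_ind K F N _ hχ]
  exact fam_base A P hD hs ha hb (SC.isChar_indChar hχ)

end fields

end Pool.Agent.H11.PP
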